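import Pool.Agent.U498.AI.Final

/-!
# The inclusion of the sphere is an embedding
-/

set_option autoImplicit false

open Set Filter Topology Metric Function
open scoped Manifold ContDiff

noncomputable section

namespace Pool.Agent.U498.AI

open Pool.Agent.Y522 Pool.Agent.U211.BLV Pool.Agent.U498.AC

/-- the inclusion of the 4-sphere -/
theorem sph_emb :
    ContMDiff (𝓡 4) (𝓡 5) ∞ ((↑) : sphere (0 : EuclideanSpace ℝ (Fin (4 + 1))) 1 →
      EuclideanSpace ℝ (Fin 5)) ∧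
    Injective ((↑) : sphere (0 : EuclideanSpace ℝ (Fin (4 + 1))) 1 → EuclideanSpace ℝ (Fin 5)) ∧
      ∀ (y : sphere (0 : EuclideanSpace ℝ (Fin (4 + 1))) 1) (v : EuclideanSpace ℝ (Fin 4)),
        fderiv ℝ (fun t => (((chartAt (EuclideanSpace ℝ (Fin 4)) y).symm t : _) :
          EuclideanSpace ℝ (Fin 5)))
          (chartAt (EuclideanSpace ℝ (Fin 4)) y y) v = 0 → v = 0 := by
  have hfact := Fact.mk (@finrank_euclideanSpace_fin ℝ _ (4 + 1))
  have h0 : ContMDiff (𝓡 4) 𝓘(ℝ, EuclideanSpace ℝ (Fin (4 + 1))) ∞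
      ((↑) : sphere (0 : EuclideanSpace ℝ (Fin (4 + 1))) 1 →
      EuclideanSpace ℝ (Fin (4 + 1))) := contMDiff_coe_sphere
  refine ⟨h0, Subtype.coe_injective, fun y v hv => ?_⟩
  have h1 := mfderiv_coe_sphere_injective (n := 4) y
  have h3 : MDifferentiableAt (𝓡 4) 𝓘(ℝ, EuclideanSpace ℝ (Fin (4 + 1)))
      ((↑) : sphere (0 : EuclideanSpace ℝ (Fin (4 + 1))) 1 → EuclideanSpace ℝ (Fin (4 + 1))) y :=
    (h0 y).mdifferentiableAt (by simp)
  have h4 : writtenInExtChartAt (𝓡 4) 𝓘(ℝ, EuclideanSpace ℝ (Fin (4 + 1))) y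
      ((↑) : sphere (0 : EuclideanSpace ℝ (Fin (4 + 1))) 1 → EuclideanSpace ℝ (Fin (4 + 1))) =
      fun t => (((chartAt (EuclideanSpace ℝ (Fin 4)) y).symm t : _) :
          EuclideanSpace ℝ (Fin 5)) := by
    funext t
    rfl
  have h5 : range (𝓡 4) = (univ : Set (EuclideanSpace ℝ (Fin 4))) := by simp
  have h6 := h3.mfderiv
  rw [h4, h5, fderivWithin_univ] at h6
  have h7 : ∀ u : EuclideanSpace ℝ (Fin 4),
      (mfderiv (𝓡 4) 𝓘(ℝ, EuclideanSpace ℝ (Fin (4 + 1)))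
        ((↑) : sphere (0 : EuclideanSpace ℝ (Fin (4 + 1))) 1 → EuclideanSpace ℝ (Fin (4 + 1))) y :
          EuclideanSpace ℝ (Fin 4) →L[ℝ] EuclideanSpace ℝ (Fin (4 + 1))) u =
      fderiv ℝ (fun t => (((chartAt (EuclideanSpace ℝ (Fin 4)) y).symm t : _) :
          EuclideanSpace ℝ (Fin 5)))
          (chartAt (EuclideanSpace ℝ (Fin 4)) y y) u := fun u =>
    congrArg (fun L : EuclideanSpace ℝ (Fin 4) →L[ℝ] EuclideanSpace ℝ (Fin (4 + 1)) => L u) h6
  exact h1 (((h7 v).trans hv).trans (((h7 0).trans (map_zero _))).symm)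

end Pool.Agent.U498.AI
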