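import Pool.Agent.U498.AC.Main

/-!
# Smooth paths are close to affine maps at small scales
-/

set_option autoImplicit false
set_option linter.unusedSectionVars false

open Set Filter Topology Metric Function
open scoped Manifold ContDiff

noncomputable section

namespace Pool.Agent.U498.AI

open Pool.Agent.Y522 Pool.Agent.U211.BLV Pool.Agent.U498.AC

variable {n m d : ℕ}

/-- injective linear maps become isometric after a linear change of variables -/
theorem exists_iso (D : E n →L[ℝ] E m) (hD : ∀ u, u ≠ 0 → D u ≠ 0) :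
    ∃ B : E n ≃L[ℝ] E n, ∀ v, ‖D (B v)‖ = ‖v‖ := by
  have hinj : Injective D.toLinearMap := by
    rw [← LinearMap.ker_eq_bot, LinearMap.ker_eq_bot']
    intro u hu
    by_contra h
    exact hD u h hu
  have hfin : Module.finrank ℝ (LinearMap.range D.toLinearMap) = n := by
    rw [LinearMap.finrank_range_of_inj hinj, finrank_euclideanSpace, Fintype.card_fin]
  obtain ⟨J⟩ : Nonempty (E n ≃ₗᵢ[ℝ] LinearMap.range D.toLinearMap) :=
    ⟨((stdOrthonormalBasis ℝ (LinearMap.range D.toLinearMap)).reindex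
      (finCongr hfin)).repr.symm⟩
  obtain ⟨D', hD'⟩ : ∃ D' : E n ≃ₗ[ℝ] LinearMap.range D.toLinearMap, ∀ u, ((D' u : _) : E m) = D u :=
    ⟨LinearEquiv.ofInjective D.toLinearMap hinj, fun u => rfl⟩
  refine ⟨(J.toLinearEquiv.trans D'.symm).toContinuousLinearEquiv, fun v => ?_⟩
  have h1 : D ((J.toLinearEquiv.trans D'.symm).toContinuousLinearEquiv v) = ((J v : _) : E m) := by
    rw [← hD']
    have h2 : D' ((J.toLinearEquiv.trans D'.symm).toContinuousLinearEquiv v) = J v := by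
      show D' (D'.symm (J v)) = J v
      exact D'.apply_symm_apply _
    rw [h2]
  rw [h1]
  exact J.norm_map v

variable {X Y : Type} [TopologicalSpace X] [ChartedSpace (E n) X] [T2Space X]
  [IsManifold (𝓡 n) ∞ X] [TopologicalSpace Y] [ChartedSpace (E n) Y] [IsManifold (𝓡 n) ∞ Y]

omit [T2Space X] in
/-- a parametrization which is isometric at the origin -/
theorem exists_isoparam {ι : X → E m} {πM : E m → X} (hTM : Tub n ι πM) (x : X) :
    ∃ A : E n → X, A 0 = x ∧ LD n A 0 ∧ ∀ v, ‖fderiv ℝ (fun w => ι (A w)) 0 v‖ = ‖v‖ := by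
  obtain ⟨A, hA0, hA⟩ := exists_param (n := n) x
  have h1 : ContDiffAt ℝ ∞ (fun w => ι (A w)) 0 :=
    contMDiffAt_iff_contDiffAt.1 ((hTM.smooth (A 0)).comp 0 hA.contMDiffAt)
  have h2 : HasFDerivAt (fun w => ι (A w)) (fderiv ℝ (fun w => ι (A w)) 0) 0 :=
    (h1.differentiableAt (by simp)).hasFDerivAt
  obtain ⟨B, hB⟩ := exists_iso (fderiv ℝ (fun w => ι (A w)) 0)
    fun u hu => imm_of_LD hTM hA h2 hu
  refine ⟨fun w => A (B w), by simp only [map_zero]; exact hA0, ?_, fun v => ?_⟩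
  · refine LD.comp_fun (g := A) (f := fun w => B w) ?_ (LD_linear B 0)
    rw [map_zero]
    exact hA
  · have h3 : HasFDerivAt (fun w => ι (A w)) (fderiv ℝ (fun w => ι (A w)) 0) (B 0) := by
      rw [map_zero]
      exact h2
    have h4 : HasFDerivAt (fun w => ι (A (B w)))
        ((fderiv ℝ (fun w => ι (A w)) 0).comp (B : E n →L[ℝ] E n)) 0 :=
      HasFDerivAt.comp (g := fun w => ι (A w)) (f := fun w => B w) 0 h3 B.hasFDerivAt
    rw [h4.fderiv, ContinuousLinearMap.comp_apply]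
    exact hB v

/-- smooth paths of local diffeomorphisms -/
theorem aff_of_smooth {ι : X → E m} {πM : E m → X} (hTM : Tub n ι πM) {e : Y → E d}
    {π : E d → Y} (hT : Tub n e π) {K : ℝ × X → Y}
    (hK : ContMDiff ((𝓘(ℝ, ℝ)).prod (𝓡 n)) (𝓡 n) ∞ K) {t₀ : ℝ} {x : X}
    (hld : LD n (fun x => K (t₀, x)) x) {c : ℝ} (hc : 0 < c) :
    ∃ A : E n → X, A 0 = x ∧ LD n A 0 ∧ (∀ v, ‖fderiv ℝ (fun w => ι (A w)) 0 v‖ = ‖v‖) ∧
      ∃ s > 0, ∀ t, |t - t₀| ≤ s → ∀ (y : E n) (r : ℝ), ‖y‖ ≤ s → r ≤ s →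
        ∃ (a : E d) (L : E n →L[ℝ] E d), Apx (fun p => e (K (t, A p))) c y r a L := by
  obtain ⟨A, hA0, hA, hiso⟩ := exists_isoparam hTM x
  refine ⟨A, hA0, hA, hiso, ?_⟩
  subst hA0
  obtain ⟨G, hG⟩ : ∃ G : ℝ × E n → E d, G = fun p => e (K (p.1, A p.2)) := ⟨_, rfl⟩
  have hGe : ∀ t p, G (t, p) = e (K (t, A p)) := fun t p => by rw [hG]
  have hGs : ContDiffAt ℝ ∞ G (t₀, 0) := by
    have h1 : ContMDiffAt ((𝓘(ℝ, ℝ)).prod (𝓡 n)) (𝓡 n) ∞ (fun p : ℝ × E n => A p.2) (t₀, 0) :=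
      ContMDiffAt.comp (I' := 𝓡 n) (g := A) (f := fun p : ℝ × E n => p.2) (t₀, 0)
        hA.contMDiffAt contMDiffAt_snd
    have h2 : ContMDiffAt ((𝓘(ℝ, ℝ)).prod (𝓡 n)) ((𝓘(ℝ, ℝ)).prod (𝓡 n)) ∞
        (fun p : ℝ × E n => (p.1, A p.2)) (t₀, 0) := contMDiffAt_fst.prodMk h1
    have h3 : ContMDiffAt ((𝓘(ℝ, ℝ)).prod (𝓡 n)) (𝓡 n) ∞ (fun p : ℝ × E n => K (p.1, A p.2))
        (t₀, 0) :=
      ContMDiffAt.comp (g := K) (f := fun p : ℝ × E n => (p.1, A p.2)) (t₀, 0) (hK _) h2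
    have h4 : ContMDiffAt ((𝓘(ℝ, ℝ)).prod (𝓡 n)) (𝓡 d) ∞ G (t₀, 0) := by
      rw [hG]
      exact ContMDiffAt.comp (g := e) (f := fun p : ℝ × E n => K (p.1, A p.2)) (t₀, 0)
        (hT.smooth _) h3
    rw [← contMDiffAt_iff_contDiffAt, modelWithCornersSelf_prod, ← chartedSpaceSelf_prod]
    exact h4
  have hst : HasStrictFDerivAt G (fderiv ℝ G (t₀, 0)) (t₀, 0) := hGs.hasStrictFDerivAt (by simp)
  obtain ⟨L, hL⟩ : ∃ L : E n →L[ℝ] E d,
      L = (fderiv ℝ G (t₀, 0)).comp (ContinuousLinearMap.inr ℝ ℝ (E n)) := ⟨_, rfl⟩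
  have hLe : ∀ u, L u = fderiv ℝ G (t₀, 0) (0, u) := fun u => by rw [hL]; rfl
  have hLd : HasFDerivAt (fun p => e (K (t₀, A p))) L 0 := by
    have h1 : HasFDerivAt (fun p : E n => (t₀, p)) (ContinuousLinearMap.inr ℝ ℝ (E n)) 0 :=
      hasFDerivAt_prodMk_right t₀ 0
    have h2 := HasFDerivAt.comp (g := G) (f := fun p : E n => (t₀, p)) 0 hst.hasFDerivAt h1
    rw [← hL] at h2
    refine h2.congr_of_eventuallyEq (Eventually.of_forall fun p => ?_)
    exact (hGe t₀ p).symm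
  have hLi : ∀ u, u ≠ 0 → L u ≠ 0 := by
    intro u hu
    exact imm_of_LD (f := fun p => K (t₀, A p)) hT
      (LD.comp_fun (g := fun x => K (t₀, x)) (f := A) hld hA) hLd hu
  -- the lower bound
  obtain ⟨μ, hμ, hμ2⟩ : ∃ μ : ℝ, 0 < μ ∧ ∀ u : E n, ‖u‖ = 1 → μ ≤ ‖L u‖ := by
    have hcomp : IsCompact (sphere (0 : E n) 1) := isCompact_sphere _ _
    by_cases hne : (sphere (0 : E n) 1).Nonempty
    · obtain ⟨u₀, hu₀, hmin⟩ := hcomp.exists_isMinOn hne (L.continuous.norm.continuousOn)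
      rw [mem_sphere_zero_iff_norm] at hu₀
      refine ⟨‖L u₀‖, norm_pos_iff.2 (hLi u₀ ?_), fun u hu => ?_⟩
      · intro h
        rw [h, norm_zero] at hu₀
        exact zero_ne_one hu₀
      · exact isMinOn_iff.1 hmin u (by rwa [mem_sphere_zero_iff_norm])
    · refine ⟨1, one_pos, fun u hu => ?_⟩
      exact absurd ⟨u, by rwa [mem_sphere_zero_iff_norm]⟩ hne
  have h7 := hst.isLittleO.def (show 0 < c * μ by positivity)
  rw [nhds_prod_eq, (nhds_basis_ball.prod_self).eventually_iff] at h7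
  obtain ⟨r', hr', hb'⟩ := h7
  refine ⟨r' / 3, by positivity, fun t ht y r hy hr => ?_⟩
  refine ⟨G (t, y) - L y, L, fun p hp v hv => ?_⟩
  have hp' : ‖p‖ < r' := by
    have := norm_add_le (p - y) y
    rw [sub_add_cancel] at this
    linarith
  have h8 := hb' (x := ((t, p), (t, y))) ⟨by
    rw [mem_ball, Prod.dist_eq, Real.dist_eq, dist_zero_right]
    exact max_lt (by linarith) hp', by
    rw [mem_ball, Prod.dist_eq, Real.dist_eq, dist_zero_right]
    exact max_lt (by linarith) (by linarith)⟩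
  simp only at h8
  have h9 : ((t, p) - (t, y) : ℝ × E n) = (0, p - y) := by
    rw [Prod.mk_sub_mk, sub_self]
  have hn0 : ‖((0 : ℝ), p - y)‖ = ‖p - y‖ := by
    rw [Prod.norm_def]
    simp
  rw [h9, ← hLe, hn0] at h8
  have h10 : e (K (t, A p)) - (G (t, y) - L y + L p) = G (t, p) - G (t, y) - L (p - y) := by
    rw [map_sub, hGe t p]
    abel
  rw [h10]
  refine h8.trans ?_
  have h11 := hμ2 v hv
  calc c * μ * ‖p - y‖ ≤ c * ‖L v‖ * r := by gcongr
    _ = c * (r * ‖L v‖) := by ring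

end Pool.Agent.U498.AI
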