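import Pool.Agent.U498.AI.Main
import Pool.Agent.U498.AI.Conv

/-!
# Paths of homeomorphisms of closed manifolds
-/

set_option autoImplicit false
set_option linter.unusedSectionVars false

open Set Filter Topology Metric Function MeasureTheory
open scoped Manifold ContDiff

noncomputable section

namespace Pool.Agent.U498.AI

open Pool.Agent.Y522 Pool.Agent.U211.BLV Pool.Agent.U498.AC

variable {n m d : ℕ} {X Y : Type} [TopologicalSpace X] [ChartedSpace (E n) X] [T2Space X]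
  [IsManifold (𝓡 n) ∞ X] [TopologicalSpace Y] [ChartedSpace (E n) Y] [IsManifold (𝓡 n) ∞ Y]

theorem SFat.congr_lam {ι : X → E m} {lam lam' : ℝ} {R : Set ℝ} {c : ℝ} {F : ℝ → X → E d}
    {t₀ : ℝ} {x : X} (h : SFat n ι lam R c F t₀ x) (hl : lam = lam') :
    SFat n ι lam' R c F t₀ x := by
  rwa [← hl]

/-- **Paths of homeomorphisms of closed manifolds.** -/
theorem path_closed [CompactSpace X] [ConnectedSpace X] [CompactSpace Y] [T2Space Y]
    (ι : X → E m) (hι : ContMDiff (𝓡 n) (𝓡 m) ∞ ι)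
    (hιinj : Injective ι)
    (hιimm : ∀ (y : X) (v : E n),
      fderiv ℝ (fun t => ι ((chartAt (E n) y).symm t)) (chartAt (E n) y y) v = 0 → v = 0)
    (e : Y → E d) (he : ContMDiff (𝓡 n) (𝓡 d) ∞ e) (hinj : Injective e)
    (himm : ∀ (y : Y) (v : E n),
      fderiv ℝ (fun t => e ((chartAt (E n) y).symm t)) (chartAt (E n) y y) v = 0 → v = 0)
    {f : ℝ × X → Y} (hf : Continuous f) (hfb : ∀ t, Bijective fun x => f (t, x))
    {R : Set ℝ} {c : ℝ}
    (hR : ∀ ε > 0, ∃ r ∈ R, 0 < r ∧ r ≤ ε) (hc0 : 0 ≤ c) (hc : c * (1 + Real.sqrt m) < 1)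
    (hloc : ∀ t₀ ∈ Icc (0 : ℝ) 1, ∀ x, SFat n ι 1 R c (fun t x => e (f (t, x))) t₀ x)
    (h0 : ∀ x, LD n (fun x => f (0, x)) x) (h1 : ∀ x, LD n (fun x => f (1, x)) x) {ε₀ : ℝ}
    (hε₀ : 0 < ε₀) :
    Iso n (fun φ : X → Y => Bijective φ ∧ (∀ x, LD n φ x) ∧
        ∃ t ∈ Icc (0 : ℝ) 1, ∀ x, ‖e (φ x) - e (f (t, x))‖ ≤ ε₀)
      (fun x => f (0, x)) (fun x => f (1, x)) := by
  have hneX : Nonempty X := inferInstance
  have hneY : Nonempty Y := by
    obtain ⟨x⟩ := hneX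
    exact ⟨f (0, x)⟩
  obtain ⟨π, hT, hn⟩ := exists_tub_near e he hinj himm
  -- the scaled embedding
  obtain ⟨Bd, hBd⟩ := (isCompact_range hι.continuous).exists_bound_of_continuousOn
    (f := fun p : E m => p) continuousOn_id
  obtain ⟨x₀⟩ := hneX
  have hBd0 : 0 ≤ Bd := (norm_nonneg _).trans (hBd _ (mem_range_self x₀))
  obtain ⟨lam, hlamd⟩ : ∃ lam, lam = (Bd + 1)⁻¹ := ⟨_, rfl⟩
  have hlam : 0 < lam := by rw [hlamd]; positivity
  obtain ⟨ι', hι'⟩ : ∃ ι' : X → E m, ι' = fun x => lam • ι x := ⟨_, rfl⟩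
  have hι's : ContMDiff (𝓡 n) (𝓡 m) ∞ ι' := by
    rw [hι']
    exact (contMDiff_iff_contDiff.2 (contDiff_const_smul lam)).comp hι
  have hι'i : Injective ι' := by
    intro a b hab
    rw [hι'] at hab
    exact hιinj (smul_right_injective _ hlam.ne' hab)
  have hchart : ∀ y : X, HasFDerivAt (fun t => ι ((chartAt (E n) y).symm t))
      (fderiv ℝ (fun t => ι ((chartAt (E n) y).symm t)) (chartAt (E n) y y))
      (chartAt (E n) y y) := by
    intro y
    have h1 : ContDiffAt ℝ ∞ (fun t => ι ((chartAt (E n) y).symm t)) (chartAt (E n) y y) :=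
      contMDiffAt_iff_contDiffAt.1 ((hι _).comp _ (chart_symm_LD y).contMDiffAt)
    exact (h1.differentiableAt (by simp)).hasFDerivAt
  have hι'imm : ∀ (y : X) (v : E n),
      fderiv ℝ (fun t => ι' ((chartAt (E n) y).symm t)) (chartAt (E n) y y) v = 0 → v = 0 := by
    intro y v hv
    have h1 : HasFDerivAt (fun t => ι' ((chartAt (E n) y).symm t))
        (lam • fderiv ℝ (fun t => ι ((chartAt (E n) y).symm t)) (chartAt (E n) y y))
        (chartAt (E n) y y) := by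
      rw [hι']
      exact (hchart y).const_smul lam
    rw [h1.fderiv, _root_.smul_apply, smul_eq_zero] at hv
    exact hιimm y v (hv.resolve_left hlam.ne')
  have hι'1 : ∀ x, ‖ι' x‖ < 1 := by
    intro x
    rw [hι']
    simp only
    rw [norm_smul, Real.norm_of_nonneg hlam.le, hlamd, ← div_eq_inv_mul, div_lt_one (by linarith)]
    have := hBd _ (mem_range_self x)
    linarith
  obtain ⟨πM, hTM, hnM⟩ := exists_tub_near ι' hι's hι'i hι'imm
  refine path_tub hTM hnM hι'i hι'1 hT hn hf hfb (R := R) (lam := lam) (c := c) hlam hR hc0 hc ?_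
    h0 h1 hε₀
  intro t₀ ht₀ x
  obtain ⟨A, hA0, hAd, hiso, hSA⟩ := hloc t₀ ht₀ x
  refine ⟨A, hA0, hAd, fun v => ?_, hSA⟩
  have h1 : ContDiffAt ℝ ∞ (fun w => ι (A w)) 0 :=
    contMDiffAt_iff_contDiffAt.1 ((hι (A 0)).comp 0 hAd.contMDiffAt)
  have h2 : HasFDerivAt (fun w => ι' (A w)) (lam • fderiv ℝ (fun w => ι (A w)) 0) 0 := by
    rw [hι']
    exact ((h1.differentiableAt (by simp)).hasFDerivAt).const_smul lam
  rw [h2.fderiv, _root_.smul_apply, norm_smul, Real.norm_of_nonneg hlam.le, hiso, one_mul]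

/-- the clamped parameter -/
theorem clamp_abs {t t₀ : ℝ} (h : t₀ ∈ Icc (0 : ℝ) 1) :
    max 0 (min 1 t) ∈ Icc (0 : ℝ) 1 ∧ |max 0 (min 1 t) - t₀| ≤ |t - t₀| := by
  obtain ⟨h1, h2⟩ := h
  rcases le_total t 0 with ht | ht
  · have h3 : max 0 (min 1 t) = 0 := by rw [min_eq_right (by linarith), max_eq_left ht]
    rw [h3]
    refine ⟨by simp, ?_⟩
    rw [abs_of_nonpos (by linarith), abs_of_nonpos (by linarith)]
    linarith
  · rcases le_total t 1 with ht' | ht'
    · have h3 : max 0 (min 1 t) = t := by rw [min_eq_right ht', max_eq_right ht]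
      rw [h3]
      exact ⟨⟨ht, ht'⟩, le_refl _⟩
    · have h3 : max 0 (min 1 t) = 1 := by rw [min_eq_left ht', max_eq_right zero_le_one]
      rw [h3]
      refine ⟨by simp, ?_⟩
      rw [abs_of_nonneg (by linarith), abs_of_nonneg (by linarith)]
      linarith

end Pool.Agent.U498.AI
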