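import Pool.Agent.U498.AI.Imm

/-!
# The smoothed maps of a path near a point
-/

set_option autoImplicit false
set_option linter.unusedSectionVars false

open Set Filter Topology Metric Function MeasureTheory
open scoped Manifold ContDiff

noncomputable section

namespace Pool.Agent.U498.AI

open Pool.Agent.Y522 Pool.Agent.U211.BLV Pool.Agent.U498.AC
open Pool.Agent.U211.BL hiding Mol LL LL_apply moll_congr moll_const moll_cont moll_conv moll_pos moll_joint moll_null mollS k_smul_integrable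

variable {n m d : ℕ} {X Y : Type} [TopologicalSpace X] [ChartedSpace (E n) X] [T2Space X]
  [IsManifold (𝓡 n) ∞ X] [TopologicalSpace Y] [ChartedSpace (E n) Y] [IsManifold (𝓡 n) ∞ Y]
  [CompactSpace Y]

variable {r₀ : ℝ} (K : Ker m r₀)

/-- **The core statement** for a path of maps. -/
theorem core_fam (hr : 0 < r₀) {ι : X → E m} {πM : E m → X} (hTM : Tub n ι πM)
    (hι1 : ∀ x, ‖ι x‖ ≤ 1)
    {e : Y → E d} {π : E d → Y} (hT : Tub n e π) (hn : ∀ p y, ‖p - e (π p)‖ ≤ ‖p - e y‖)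
    {f : ℝ × X → Y} (hf : Continuous f) (hfi : ∀ t, Injective fun x => f (t, x))
    {H : ℝ × E m → E d} (hH : Continuous H) {ρ : ℝ} (hρ : 0 < ρ)
    (hHn : ∀ t x p, ‖p - ι x‖ ≤ ρ → H (t, p) = e (f (t, πM p))) {χ : E m → ℝ} (hχ : Cut χ)
    {A : E n → X} (hA : Box A) {c₁ τ : ℝ} (hc₁ : 0 ≤ c₁)
    (hτS : ‖fderiv ℝ (tau πM A) (ι (A 0))‖ < τ)
    (hc : c₁ * (1 + Real.sqrt m / r₀ * (τ * ‖fderiv ℝ (fun w => ι (A w)) 0‖)) < 1) (t₀ : ℝ) :
    ∃ s : ℝ, 0 < s ∧ s ≤ 1 / 4 ∧ ∀ δ, 0 < δ → δ ≤ s → ∀ t, |t - t₀| ≤ s → ∀ y : E n,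
      ‖y‖ ≤ s → 0 < χ (ι (A y)) →
      (∃ (a : E d) (L : E n →L[ℝ] E d),
        Apx (fun p => e (f (t, A p))) c₁ y (τ * (δ * χ (ι (A y)))) a L) →
      ImmAt ι πM e π (Mol K (fun p => H (t, p)) (fun z => δ * χ z)) (A y) := by
  obtain ⟨q, hq⟩ : ∃ q, q = Real.sqrt m / r₀ := ⟨_, rfl⟩
  have hq0 : 0 ≤ q := by rw [hq]; positivity
  obtain ⟨S₀, hS₀⟩ : ∃ S₀, S₀ = ‖fderiv ℝ (tau πM A) (ι (A 0))‖ := ⟨_, rfl⟩
  obtain ⟨D₀, hD₀⟩ : ∃ D₀, D₀ = ‖fderiv ℝ (fun w => ι (A w)) 0‖ := ⟨_, rfl⟩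
  have hS₀0 : 0 ≤ S₀ := by rw [hS₀]; exact norm_nonneg _
  have hD₀0 : 0 ≤ D₀ := by rw [hD₀]; exact norm_nonneg _
  rw [← hS₀] at hτS
  rw [← hq, ← hD₀] at hc
  have hτ0 : 0 < τ := by linarith
  obtain ⟨κ, hκ0, hκ1, hκτ, hκc⟩ := exists_kap (mm := m) hτS hc
  obtain ⟨θ, hθ⟩ : ∃ θ, θ = (q + 2 * m * κ) * (c₁ * τ) * (D₀ + κ) := ⟨_, rfl⟩
  have hθ0 : 0 ≤ θ := by rw [hθ]; positivity
  rw [← hθ] at hκc
  -- the tolerance of the retraction
  obtain ⟨ξ, ⟨x1, -⟩, hξ⟩ := (((small (2 + c₁ + θ / (1 - κ)) (D := 1 - (c₁ + θ / (1 - κ)))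
    (by linarith)).and (small 1 one_pos)).and self_mem_nhdsWithin).exists
  have hξ0 : 0 < ξ := hξ
  obtain ⟨tt, ht0, ht⟩ := PP_unif hT hξ0
  obtain ⟨Cχ, hCχ0, hCχ⟩ := hχ.lip
  obtain ⟨T, Λ, s₁, hTs, hΛ, hs₁, hs₁1, hgeo⟩ := geo hTM hA (F := ι) (H := PP ι πM)
    (Eventually.of_forall fun p => rfl) hκ0
  rw [← hS₀, ← hD₀] at hgeo
  have hei : Injective e := fun a b hab => by
    have := congrArg π hab
    rwa [hT.retr, hT.retr] at this
  have hιi : Injective ι := fun a b hab => by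
    have := congrArg πM hab
    rwa [hTM.retr, hTM.retr] at this
  -- the maps in the box
  obtain ⟨GA, hGA⟩ : ∃ GA : ℝ → E n → E d, GA = fun t p => e (f (t, A p)) := ⟨_, rfl⟩
  have hGAe : ∀ t p, GA t p = e (f (t, A p)) := fun t p => by rw [hGA]
  have hGAi : ∀ t, InjOn (GA t) (closedBall 0 2) := by
    intro t p hp q hq h
    rw [hGAe, hGAe] at h
    exact hA.inj hp hq (hfi t (hei h))
  have hGA0 : ContinuousAt (fun p : ℝ × E n => GA p.1 p.2) (t₀, 0) := by
    have h1 : ContinuousAt A 0 := (box_contOn hA).continuousAt (closedBall_mem_nhds _ (by norm_num))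
    have h2 : ContinuousAt (fun p : ℝ × E n => A p.2) (t₀, 0) :=
      ContinuousAt.comp (g := A) (f := fun p : ℝ × E n => p.2) h1 continuous_snd.continuousAt
    have h3 : ContinuousAt (fun p : ℝ × E n => (p.1, A p.2)) (t₀, 0) :=
      continuous_fst.continuousAt.prodMk h2
    have h4 : (fun p : ℝ × E n => GA p.1 p.2) = (fun q => e (f q)) ∘
        fun p : ℝ × E n => (p.1, A p.2) := by
      funext p
      simp only [comp_apply, hGAe]
    rw [h4]
    exact ((hT.smooth.continuous.comp hf).continuousAt).comp h3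
  obtain ⟨s₂, hs₂, hb⟩ := Metric.continuousAt_iff.1 hGA0 (tt / 4) (by positivity)
  have hb' : ∀ (t : ℝ) (p : E n), |t - t₀| < s₂ → ‖p‖ < s₂ → ‖GA t p - GA t₀ 0‖ < tt / 4 := by
    intro t p ht hp
    have := hb (x := (t, p)) (by
      rw [Prod.dist_eq, Real.dist_eq, dist_zero_right]
      exact max_lt ht hp)
    rwa [dist_eq_norm] at this
  -- the scale
  obtain ⟨s, ⟨⟨e1, e2, e3, e4, e5, e6, e7⟩, e8⟩, hs⟩ := ((((small 1 (D := s₁) hs₁).and
    ((small (τ + 1) (D := s₂) hs₂).and ((small Cχ (D := κ) hκ0).and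
      ((small 1 (D := 1 / 4) (by norm_num)).and ((small τ (D := 1) one_pos).and
      ((small Λ (D := κ) hκ0).and (small ((q + 2 * m * κ) * Λ * (D₀ + κ)) (D := κ) hκ0))))))).and
        (small 1 (D := min s₂ ρ) (lt_min hs₂ hρ))).and self_mem_nhdsWithin).exists
  have hs0 : 0 < s := hs
  rw [mul_one] at e1 e4 e8
  have e9 := e8.trans_le (min_le_left _ _)
  have e10 := e8.trans_le (min_le_right _ _)
  refine ⟨s, hs0, e4.le, fun δ hδ hδs t hts y hy hx => ?_⟩
  rintro ⟨a, L, hap⟩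
  have hRad : Rad (fun z => δ * χ z) := hχ.rad hδ (by linarith)
  obtain ⟨c, hc'⟩ : ∃ c : E m → ℝ, c = fun z => δ * χ z := ⟨_, rfl⟩
  have hce : ∀ z, c z = δ * χ z := fun z => by rw [hc']
  rw [← hc'] at hRad ⊢
  obtain ⟨z, hz⟩ : ∃ z, z = ι (A y) := ⟨_, rfl⟩
  rw [← hz] at hx hap
  rw [← hce] at hap
  obtain ⟨G, hG⟩ : ∃ G : E n → E d, G = GA t := ⟨_, rfl⟩
  have hGe : ∀ p, G p = e (f (t, A p)) := fun p => by rw [hG, hGAe]
  have hGf : (fun p => e (f (t, A p))) = G := by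
    funext p
    rw [hGe]
  rw [hGf] at hap
  obtain ⟨Ht, hHt⟩ : ∃ Ht : E m → E d, Ht = fun p => H (t, p) := ⟨_, rfl⟩
  have hHte : ∀ p, Ht p = H (t, p) := fun p => by rw [hHt]
  have hHtc : ContinuousOn Ht (closedBall 0 2) := by
    rw [hHt]
    exact (hH.comp (by fun_prop)).continuousOn
  rw [← hHt]
  have hcz : 0 < c z := by rw [hce]; exact mul_pos hδ hx
  have hczδ : c z ≤ δ := by
    rw [hce]
    have := hχ.le z
    nlinarith
  have hczs : c z ≤ s := hczδ.trans hδs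
  obtain ⟨hg1, hg2, hg3⟩ := hgeo y (by linarith)
  rw [← hz] at hg2
  have hR0 : 0 < τ * c z := by positivity
  have hRs : τ * c z ≤ s * τ := by nlinarith
  have hc1 : ‖fderiv ℝ c z‖ ≤ κ := by
    have h1 : HasFDerivAt c (δ • fderiv ℝ χ z) z := by
      rw [hc']
      exact ((hχ.smooth.differentiable (by simp)).differentiableAt.hasFDerivAt).const_mul δ
    rw [h1.fderiv, norm_smul, Real.norm_of_nonneg hδ.le]
    calc δ * ‖fderiv ℝ χ z‖ ≤ s * Cχ := mul_le_mul hδs (hCχ z) (norm_nonneg _) hs0.le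
      _ ≤ κ := e3.le
  have hHA : ∀ p : E m, ‖p - z‖ ≤ c z → Ht p = G (T p) := by
    intro p hp
    have h1 := hg1.eq (p - z) (by linarith)
    rw [← hz, add_sub_cancel] at h1
    have h2 : πM p = A (T p) := hιi h1
    rw [hHte, hGe, hHn t (A y) p (by rw [← hz]; linarith), h2]
  have hquad : ∀ v : E m, ‖v‖ ≤ c z → ‖T (z + v) - y - fderiv ℝ T z v‖ ≤ Λ * ‖v‖ ^ 2 := by
    intro v hv
    rw [hz]
    exact hg1.quad v (by linarith)
  have hball : ∀ p, ‖p - z‖ ≤ c z → ‖T p - y‖ ≤ τ * c z := by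
    intro p hp
    have h2 := hquad (p - z) hp
    rw [add_sub_cancel] at h2
    have h3 : T p - y = (T p - y - fderiv ℝ T z (p - z)) + fderiv ℝ T z (p - z) := by abel
    rw [h3]
    refine (norm_add_le _ _).trans ?_
    have h4 : ‖fderiv ℝ T z (p - z)‖ ≤ (S₀ + κ) * ‖p - z‖ :=
      (fderiv ℝ T z).le_of_opNorm_le hg2 _
    have h5 := norm_nonneg (p - z)
    have h6 : (S₀ + κ) * ‖p - z‖ ≤ (S₀ + κ) * c z := by gcongr
    have h7 : Λ * ‖p - z‖ ^ 2 ≤ κ * c z := by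
      have h8 : Λ * ‖p - z‖ ^ 2 ≤ Λ * (c z * c z) := by
        apply mul_le_mul_of_nonneg_left _ (by linarith)
        rw [sq]
        exact mul_le_mul hp hp h5 hcz.le
      have h9 : Λ * c z ≤ κ := by nlinarith
      nlinarith
    have h8 : (S₀ + 2 * κ) * c z ≤ τ * c z := mul_le_mul_of_nonneg_right hκτ hcz.le
    linarith
  -- closeness
  have hHz : Ht z = G y := by
    rw [hHA z (by rw [sub_self, norm_zero]; exact hcz.le), hz, hg1.fix]
  have hpos2 : ∀ p : E n, ‖p - y‖ ≤ τ * c z → ‖G p - G y‖ ≤ tt / 2 := by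
    intro p hp
    have h1 : ‖p‖ < s₂ := by
      have h2 := norm_add_le (p - y) y
      rw [sub_add_cancel] at h2
      linarith
    have h2 : ‖y‖ < s₂ := by nlinarith
    have h3 := hb' t p (by linarith) h1
    have h4 := hb' t y (by linarith) h2
    rw [← hG] at h3 h4
    have h5 : G p - G y = (G p - GA t₀ 0) - (G y - GA t₀ 0) := by abel
    rw [h5]
    refine (norm_sub_le _ _).trans ?_
    linarith
  have hclose : ‖Mol K Ht c z - G y‖ ≤ tt / 2 := by
    rw [← hHz]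
    apply mol_close' K hHtc hRad
    · rw [hz]
      exact (hι1 _).trans (by norm_num)
    · intro p hp
      rw [hHz, hHA p hp]
      exact hpos2 _ (hball p hp)
  rw [hGe] at hclose
  have hmain : ∀ u : E n, ‖u‖ = 1 → fderiv ℝ (PP e π) (Mol K Ht c z)
      (((fderiv ℝ (Mol K Ht c) z).comp (fderiv ℝ (fun w => ι (A w)) y)) u) ≠ 0 := by
    intro u hu
    have hin : ∀ v : E n, ‖v‖ = 1 → y + (τ * c z) • v ∈ closedBall (0 : E n) 2 := by
      intro v hv
      rw [mem_closedBall_zero_iff]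
      refine (norm_add_le _ _).trans ?_
      rw [norm_smul, hv, mul_one, Real.norm_of_nonneg hR0.le]
      linarith
    have hpos : ∀ v : E n, ‖v‖ = 1 → 0 < ‖L v‖ := by
      intro v hv
      apply hap.pos hR0 hv
      intro h
      have hm2 : y ∈ closedBall (0 : E n) 2 := by rw [mem_closedBall_zero_iff]; linarith
      rw [hG] at h
      have h2 := hGAi t (hin v hv) hm2 h
      have h3 : (τ * c z) • v = 0 := by
        have := congrArg (fun x => x - y) h2
        simpa using this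
      have h4 : ‖(τ * c z) • v‖ = τ * c z := by
        rw [norm_smul, hv, mul_one, Real.norm_of_nonneg hR0.le]
      rw [h3, norm_zero] at h4
      linarith
    obtain ⟨u'', hu1, hV⟩ := der_nearX (K := K) hr hHtc hRad hTs hcz hc₁ hc1 hap (by linarith)
      hτ0.le hball hHA hquad hg3 (fun u => by
        rw [hz]
        exact hg1.inv u) hu
    rw [← hq] at hu1 hV
    have hu2 : 1 - κ ≤ ‖u''‖ := by
      have h1 := norm_sub_norm_le u u''
      rw [hu, ← norm_neg (u - u''), neg_sub] at h1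
      have h2 : (q + 2 * m * κ) * (Λ * c z) * (D₀ + κ) ≤ κ := by
        calc (q + 2 * m * κ) * (Λ * c z) * (D₀ + κ) ≤ (q + 2 * m * κ) * (Λ * s) * (D₀ + κ) := by
              gcongr
          _ = s * ((q + 2 * m * κ) * Λ * (D₀ + κ)) := by ring
          _ ≤ κ := e7.le
      linarith
    have hqc := QC_of hT hξ0.le ht (PP_sub_id hT hn) (le_refl tt) (fun x => f (t, x)) (A y)
    have hneg : ∀ v : E n, y - (τ * c z) • v = y + (τ * c z) • (-v) := fun v => by
      rw [smul_neg, sub_eq_add_neg]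
    have hfar : ∀ v : E n, ‖v‖ = 1 → ‖e (f (t, A (y + (τ * c z) • v))) - e (f (t, A y))‖ ≤ tt := by
      intro v hv
      rw [← hGe, ← hGe]
      refine (hpos2 _ ?_).trans (by linarith)
      rw [add_sub_cancel_left, norm_smul, hv, mul_one, Real.norm_of_nonneg hR0.le]
    refine proj_neX (GA := G) (D := fderiv ℝ (PP e π) (e (f (t, A y)))) (ε := c₁) (ξ := ξ) (κ := κ)
      (θ := θ) hR0 hu2 (by linarith) hap hpos ?_ (PP_sub_id hT hn _) (PP_le hT hn _)
      ((ht (f (t, A y)) _ (hclose.trans (by linarith))).2) ?_ hξ0.le ?_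
    · intro v hv
      have h1 := hV v hv
      rw [hθ]
      exact h1
    · intro v hv
      rw [hneg, hGe, hGe]
      exact hqc.dif (A (y + (τ * c z) • v)) (A (y + (τ * c z) • (-v))) (hfar v hv)
        (hfar (-v) (by rw [norm_neg]; exact hv))
    · linarith
  -- the tangent vectors
  intro w hw
  have hw2 := lift_tn hTM hs₁ hg1 hTs hw.2
  obtain ⟨u, hu⟩ : ∃ u, u = fderiv ℝ T (ι (A y)) w := ⟨_, rfl⟩
  rw [← hu] at hw2
  have hu0 : u ≠ 0 := by
    intro h
    rw [h, map_zero] at hw2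
    have := hw.1
    rw [← hw2, norm_zero] at this
    exact zero_ne_one this
  have hun : ‖u‖ ≠ 0 := norm_ne_zero_iff.2 hu0
  have h1 := hmain (‖u‖⁻¹ • u) (by rw [norm_smul, norm_inv, norm_norm, inv_mul_cancel₀ hun])
  rw [map_smul, map_smul, ContinuousLinearMap.comp_apply, hw2] at h1
  rw [← hz]
  intro h2
  rw [h2, smul_zero] at h1
  exact h1 rfl

end Pool.Agent.U498.AI
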