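import Pool.Agent.U498.AI.Core

/-!
# The smoothed maps of a path
-/

set_option autoImplicit false
set_option linter.unusedSectionVars false

open Set Filter Topology Metric Function MeasureTheory
open scoped Manifold ContDiff

noncomputable section

namespace Pool.Agent.U498.AI

open Pool.Agent.Y522 Pool.Agent.U211.BLV Pool.Agent.U498.AC
open Pool.Agent.U211.BL hiding Mol LL LL_apply moll_congr moll_const moll_cont moll_conv moll_pos moll_joint moll_null mollS k_smul_integrable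

section ext

variable {n m d : ℕ} {X : Type} [TopologicalSpace X] [ChartedSpace (E n) X] [T2Space X]
  [IsManifold (𝓡 n) ∞ X] [CompactSpace X]

/-- extension of a path of functions on the manifold -/
theorem exists_HF {ι : X → E m} {πM : E m → X} (hTM : Tub n ι πM) {F : ℝ × X → E d}
    (hF : Continuous F) :
    ∃ (H : ℝ × E m → E d) (ρ : ℝ), Continuous H ∧ 0 < ρ ∧
      ∀ t x p, ‖p - ι x‖ ≤ ρ → H (t, p) = F (t, πM p) := by
  obtain ⟨τ, hτ0, hτ⟩ := PP_unif hTM (ξ := 1) one_pos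
  have hιc : Continuous ι := hTM.smooth.continuous
  have hrc : IsCompact (range ι) := isCompact_range hιc
  obtain ⟨S, hS⟩ : ∃ S, S = cthickening τ (range ι) := ⟨_, rfl⟩
  have hSc : IsClosed S := by rw [hS]; exact isClosed_cthickening
  have hmem : ∀ p ∈ S, ContMDiffAt (𝓡 m) (𝓡 n) ∞ πM p := by
    intro p hp
    rw [hS, hrc.cthickening_eq_biUnion_closedBall hτ0.le, mem_iUnion₂] at hp
    obtain ⟨_, ⟨y, rfl⟩, hy⟩ := hp
    rw [mem_closedBall, dist_eq_norm] at hy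
    exact (hτ y p hy).1
  obtain ⟨S', hS'⟩ : ∃ S' : Set (ℝ × E m), S' = {q | q.2 ∈ S} := ⟨_, rfl⟩
  have hSc' : IsClosed S' := by rw [hS']; exact hSc.preimage continuous_snd
  have hcont : ContinuousOn (fun q : ℝ × E m => F (q.1, πM q.2)) S' := by
    rintro ⟨t, p⟩ hp
    rw [hS'] at hp
    have h1 : ContinuousAt (fun q : ℝ × E m => πM q.2) (t, p) :=
      ContinuousAt.comp (g := πM) (f := fun q : ℝ × E m => q.2) (hmem p hp).continuousAt
        continuous_snd.continuousAt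
    have h2 : ContinuousAt (fun q : ℝ × E m => (q.1, πM q.2)) (t, p) :=
      continuous_fst.continuousAt.prodMk h1
    exact (ContinuousAt.comp (g := F) (f := fun q : ℝ × E m => (q.1, πM q.2)) hF.continuousAt
      h2).continuousWithinAt
  obtain ⟨H, hH⟩ := ContinuousMap.exists_restrict_eq hSc'
    (⟨S'.domRestrict fun q => F (q.1, πM q.2), hcont.domRestrict⟩ : C(S', E d))
  refine ⟨H, τ, H.continuous, hτ0, fun t x p hp => ?_⟩
  have hpS : ((t, p) : ℝ × E m) ∈ S' := by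
    rw [hS']
    show p ∈ S
    rw [hS, hrc.cthickening_eq_biUnion_closedBall hτ0.le, mem_iUnion₂]
    exact ⟨ι x, mem_range_self x, by rwa [mem_closedBall, dist_eq_norm]⟩
  exact congrArg (fun f : C(S', E d) => f ⟨(t, p), hpS⟩) hH

end ext

section mol

variable {m d : ℕ} {r₀ : ℝ} (K : Ker m r₀)

/-- two mollifications -/
theorem mol_two {G G' : E m → E d} {c : E m → ℝ} (hG : ContinuousOn G (closedBall 0 2))
    (hG' : ContinuousOn G' (closedBall 0 2)) (hc : Rad c) {z : E m} (hz : ‖z‖ ≤ 3 / 2) {M : ℝ}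
    (h : ∀ p ∈ closedBall (0 : E m) 2, ‖G p - G' p‖ ≤ M) :
    ‖Mol K G c z - Mol K G' c z‖ ≤ M := by
  have hcont : ∀ {G : E m → E d}, ContinuousOn G (closedBall 0 2) →
      ContinuousOn (fun s => G (z + c z • s)) (closedBall (0 : E m) 1) := by
    intro G hG
    apply hG.comp (by fun_prop)
    intro s hs
    exact pt_mem (hc.nonneg z) (hc.le z) hz (by simpa using hs)
  have h2 : Mol K G c z - Mol K G' c z =
      ∫ s, (K.k s • G (z + c z • s) - K.k s • G' (z + c z • s)) := by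
    rw [integral_sub (k_smul_integrable K (hcont hG)) (k_smul_integrable K (hcont hG'))]
    rfl
  have hle : ∀ s : E m, ‖K.k s • G (z + c z • s) - K.k s • G' (z + c z • s)‖ ≤ K.k s * M := by
    intro s
    rw [← smul_sub, norm_smul, Real.norm_of_nonneg (K.nonneg s)]
    by_cases hs : K.k s = 0
    · rw [hs, zero_mul, zero_mul]
    apply mul_le_mul_of_nonneg_left _ (K.nonneg s)
    apply h
    exact pt_mem (hc.nonneg z) (hc.le z) hz (K.lt hs).le
  rw [h2]
  calc _ ≤ ∫ s, K.k s * M :=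
        norm_integral_le_of_norm_le (K.integrable.mul_const _) (Eventually.of_forall hle)
    _ = M := by rw [integral_mul_const, K.int, one_mul]

/-- mollifications of a continuous path of functions -/
theorem mol_t (hr : 0 < r₀) {H : ℝ × E m → E d} (hH : Continuous H) {c : E m → ℝ} (hc : Rad c)
    (t₀ : ℝ) {δ β : ℝ} (hδ : 0 < δ) {ε : ℝ} (hε : 0 < ε) :
    ∀ᶠ t in 𝓝 t₀, ∀ z : E m, ‖z‖ ≤ 3 / 2 → c z = δ → ‖fderiv ℝ c z‖ ≤ β →
      ‖Mol K (fun p => H (t, p)) c z - Mol K (fun p => H (t₀, p)) c z‖ ≤ ε ∧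
      ∀ w, ‖w‖ = 1 → ‖fderiv ℝ (Mol K (fun p => H (t, p)) c) z w -
        fderiv ℝ (Mol K (fun p => H (t₀, p)) c) z w‖ ≤ ε := by
  obtain ⟨C, hC⟩ : ∃ C : ℝ, C = Real.sqrt m / r₀ + 2 * m * |β| := ⟨_, rfl⟩
  have hC0 : 0 ≤ C := by rw [hC]; positivity
  obtain ⟨η, ⟨h1, h2⟩, hη⟩ := ((small 1 hε).and (small (C / δ) hε)).and
    self_mem_nhdsWithin |>.exists
  have hη0 : 0 < η := hη
  rw [mul_one] at h1
  have hev : ∀ᶠ t in 𝓝 t₀, ∀ p ∈ closedBall (0 : E m) 2, ‖H (t, p) - H (t₀, p)‖ < η := by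
    apply (isCompact_closedBall (0 : E m) 2).eventually_forall_of_forall_eventually
      (P := fun t p => ‖H (t, p) - H (t₀, p)‖ < η)
    intro p hp
    have h3 : Continuous fun q : ℝ × E m => ‖H (q.1, q.2) - H (t₀, q.2)‖ := by fun_prop
    apply h3.continuousAt.eventually_lt_const
    simpa using hη0
  filter_upwards [hev] with t ht z hz hcz hβ
  have hcH : ∀ t, ContinuousOn (fun p => H (t, p)) (closedBall 0 2) := fun t =>
    (by fun_prop : Continuous fun p => H (t, p)).continuousOn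
  refine ⟨(mol_two K (hcH t) (hcH t₀) hc hz fun p hp => (ht p hp).le).trans h1.le, fun w hw => ?_⟩
  have hc0 : 0 < c z := by rw [hcz]; exact hδ
  have h3 := mol_compareX K hr (hcH t) (hcH t₀) hc hc0 (hβ.trans (le_abs_self β)) hη0.le
    (fun p hp => (ht p (by
      rw [mem_closedBall_zero_iff]
      have h4 := norm_add_le (p - z) z
      rw [sub_add_cancel] at h4
      have h5 := hc.le z
      linarith)).le) w
  rw [hw, mul_one, ← hC, hcz] at h3
  refine h3.trans ?_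
  calc C * (η / δ) = η * (C / δ) := by ring
    _ ≤ ε := h2.le

/-- mollifications of a smooth function -/
theorem mol_end {S : Set (E m)} (hS : IsCompact S) (hS1 : ∀ z ∈ S, ‖z‖ ≤ 3 / 2) {G : E m → E d}
    (hG : Continuous G) (hGs : ∀ z ∈ S, ∀ᶠ p in 𝓝 z, ContDiffAt ℝ ∞ G p) {ε : ℝ} (hε : 0 < ε) :
    ∃ δ₀ : ℝ, 0 < δ₀ ∧ ∀ (c : E m → ℝ) (δ : ℝ), Rad c → 0 < δ → δ ≤ δ₀ → ∀ z ∈ S, c z = δ →
      ‖fderiv ℝ c z‖ ≤ 1 → ‖Mol K G c z - G z‖ ≤ ε ∧
      ∀ w, ‖w‖ = 1 → ‖fderiv ℝ (Mol K G c) z w - fderiv ℝ G z w‖ ≤ ε := by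
  obtain ⟨C, hC0, hC⟩ := mol_near K (d := d)
  obtain ⟨η, ⟨h1, h2⟩, hη⟩ := ((small 1 hε).and (small (C + 1) hε)).and
    self_mem_nhdsWithin |>.exists
  have hη0 : 0 < η := hη
  rw [mul_one] at h1
  have hev : ∀ᶠ δ in 𝓝 (0 : ℝ), ∀ z ∈ S, 0 < δ → ∀ c : E m → ℝ, Rad c → c z = δ →
      ‖fderiv ℝ c z‖ ≤ 1 → ‖Mol K G c z - G z‖ ≤ ε ∧
      ∀ w, ‖w‖ = 1 → ‖fderiv ℝ (Mol K G c) z w - fderiv ℝ G z w‖ ≤ ε := by
    apply hS.eventually_forall_of_forall_eventually
      (P := fun δ z => 0 < δ → ∀ c : E m → ℝ, Rad c → c z = δ →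
        ‖fderiv ℝ c z‖ ≤ 1 → ‖Mol K G c z - G z‖ ≤ ε ∧
        ∀ w, ‖w‖ = 1 → ‖fderiv ℝ (Mol K G c) z w - fderiv ℝ G z w‖ ≤ ε)
    intro z₀ hz₀
    have hs := hGs z₀ hz₀
    have h3 : HasStrictFDerivAt G (fderiv ℝ G z₀) z₀ :=
      hs.self_of_nhds.hasStrictFDerivAt (by simp)
    have h4 : ContinuousAt (fderiv ℝ G) z₀ :=
      (hs.self_of_nhds.fderiv_right (m := 0) (by simp)).continuousAt
    have h5 : ∀ᶠ z in 𝓝 z₀, ‖fderiv ℝ G z - fderiv ℝ G z₀‖ < η := by
      filter_upwards [Metric.continuousAt_iff'.1 h4 η hη0] with z hz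
      rwa [dist_eq_norm] at hz
    have h6 : ∀ᶠ z in 𝓝 z₀, ‖G z - G z₀‖ < η / 2 := by
      filter_upwards [Metric.continuousAt_iff'.1 hG.continuousAt (η / 2) (by positivity)] with z hz
      rwa [dist_eq_norm] at hz
    obtain ⟨r, hr, hb⟩ := Metric.eventually_nhds_iff_ball.1 (h5.and h6)
    have h7 := h3.isLittleO.def hη0
    rw [nhds_prod_eq, (nhds_basis_ball.prod_self).eventually_iff] at h7
    obtain ⟨r', hr', hb'⟩ := h7
    have h8 : ∀ᶠ q : ℝ × E m in 𝓝 (0, z₀), |q.1| < min r r' / 2 ∧ ‖q.2 - z₀‖ < min r r' / 2 := by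
      have hm : 0 < min r r' / 2 := by
        have := lt_min hr hr'
        linarith
      have h9 : Continuous fun q : ℝ × E m => |q.1| := by fun_prop
      have h10 : Continuous fun q : ℝ × E m => ‖q.2 - z₀‖ := by fun_prop
      exact (h9.continuousAt.eventually_lt_const (by simpa using hm)).and
        (h10.continuousAt.eventually_lt_const (by simpa using hm))
    filter_upwards [h8] with q hq hδ c hc hcz hc1
    obtain ⟨δ, z⟩ := q
    obtain ⟨hq1, hq2⟩ := hq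
    simp only at hq1 hq2 hδ hcz hc1 ⊢
    rw [abs_of_pos hδ] at hq1
    have hmr := min_le_left r r'
    have hmr' := min_le_right r r'
    have hz1 : ‖z‖ < 1 := by
      by_contra h
      have := hc.zero z (not_lt.1 h)
      rw [hcz] at this
      exact hδ.ne' this
    have hin : ∀ p, ‖p - z‖ ≤ c z → ‖p - z₀‖ < min r r' := by
      intro p hp
      have h9 : p - z₀ = (p - z) + (z - z₀) := by abel
      rw [h9]
      refine (norm_add_le _ _).trans_lt ?_
      rw [hcz] at hp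
      linarith
    have hGc : ContinuousOn G (closedBall 0 2) := hG.continuousOn
    constructor
    · refine (mol_close' K hGc hc (by linarith) (M := η) ?_).trans h1.le
      intro p hp
      have h9 := (hb p (by rw [mem_ball, dist_eq_norm]; linarith [hin p hp])).2
      have h10 := (hb z (by rw [mem_ball, dist_eq_norm]; linarith)).2
      have h11 : G p - G z = (G p - G z₀) - (G z - G z₀) := by abel
      rw [h11]
      refine (norm_sub_le _ _).trans ?_
      linarith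
    · intro w hw
      have hcz0 : 0 < c z := by rw [hcz]; exact hδ
      have h9 := hC G (G z - fderiv ℝ G z₀ z) (fderiv ℝ G z₀) c hGc hc z (η * δ) hcz0 hc1
        (by positivity) (by
          intro p hp
          have h10 := hb' (x := (p, z)) ⟨by rw [mem_ball, dist_eq_norm]; linarith [hin p hp],
            by rw [mem_ball, dist_eq_norm]; linarith⟩
          simp only at h10
          have h11 : G p - (G z - fderiv ℝ G z₀ z + fderiv ℝ G z₀ p) =
              G p - G z - fderiv ℝ G z₀ (p - z) := by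
            rw [map_sub]
            abel
          rw [h11]
          refine h10.trans ?_
          rw [hcz] at hp
          gcongr) w
      rw [hw, mul_one, hcz, mul_div_cancel_right₀ _ hδ.ne'] at h9
      have h10 := (hb z (by rw [mem_ball, dist_eq_norm]; linarith)).1
      have h11 : ‖fderiv ℝ G z w - fderiv ℝ G z₀ w‖ ≤ η := by
        have h12 := (fderiv ℝ G z - fderiv ℝ G z₀).le_of_opNorm_le h10.le w
        rwa [hw, mul_one, _root_.sub_apply] at h12
      have h12 : fderiv ℝ (Mol K G c) z w - fderiv ℝ G z w =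
          (fderiv ℝ (Mol K G c) z w - fderiv ℝ G z₀ w) -
            (fderiv ℝ G z w - fderiv ℝ G z₀ w) := by abel
      rw [h12]
      refine (norm_sub_le _ _).trans ?_
      linarith
  obtain ⟨r, hr, hb⟩ := Metric.eventually_nhds_iff_ball.1 hev
  refine ⟨r / 2, by positivity, fun c δ hc hδ hδr z hz hcz hc1 => ?_⟩
  exact hb δ (by rw [mem_ball, dist_zero_right, Real.norm_of_nonneg hδ.le]; linarith) z hz hδ c hc
    hcz hc1

end mol

section fam

variable {n m d : ℕ} {X Y : Type} [TopologicalSpace X] [ChartedSpace (E n) X] [T2Space X]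
  [IsManifold (𝓡 n) ∞ X] [TopologicalSpace Y] [ChartedSpace (E n) Y] [IsManifold (𝓡 n) ∞ Y]
  [CompactSpace Y]

/-- the path of maps is `c`-close to affine maps at the scales in `R` near `(t₀, x)`, in a
parametrization which is isometric at the origin up to the factor `lam` -/
def SFat (n : ℕ) {m d : ℕ} {X : Type} [TopologicalSpace X] [ChartedSpace (E n) X]
    (ι : X → E m) (lam : ℝ) (R : Set ℝ) (c : ℝ) (F : ℝ → X → E d) (t₀ : ℝ) (x : X) : Prop :=
  ∃ A : E n → X, A 0 = x ∧ LD n A 0 ∧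
    (∀ v, ‖fderiv ℝ (fun w => ι (A w)) 0 v‖ = lam * ‖v‖) ∧
    ∃ s > 0, ∀ t, |t - t₀| ≤ s → ∀ (y : E n) (r : ℝ), ‖y‖ ≤ s → r ∈ R → 0 < r → r ≤ s →
      ∃ (a : E d) (L : E n →L[ℝ] E d), Apx (fun p => F t (A p)) c y r a L

/-- the smoothed maps near a point -/
theorem fam_pt {r₀ : ℝ} (K : Ker m r₀) (hr : 0 < r₀) {ι : X → E m} {πM : E m → X}
    (hTM : Tub n ι πM) (hnM : ∀ p y, ‖p - ι (πM p)‖ ≤ ‖p - ι y‖)
    (hι1 : ∀ x, ‖ι x‖ ≤ 1)
    {e : Y → E d} {π : E d → Y} (hT : Tub n e π) (hn : ∀ p y, ‖p - e (π p)‖ ≤ ‖p - e y‖)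
    {f : ℝ × X → Y} (hf : Continuous f) (hfi : ∀ t, Injective fun x => f (t, x))
    {H : ℝ × E m → E d} (hH : Continuous H) {ρ : ℝ} (hρ : 0 < ρ)
    (hHn : ∀ t x p, ‖p - ι x‖ ≤ ρ → H (t, p) = e (f (t, πM p))) {χ : E m → ℝ} (hχ : Cut χ)
    (hχ1 : ∀ x, χ (ι x) = 1)
    {R : Set ℝ} {lam θ c : ℝ} (hlam : 0 < lam) (hθ : 0 < θ) (hθ1 : θ < 1) (hc0 : 0 ≤ c)
    (hc : c * (1 + Real.sqrt m / r₀ * θ⁻¹) < 1) {t₀ : ℝ} {x : X}
    (hx : SFat n ι lam R c (fun t x => e (f (t, x))) t₀ x) :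
    ∃ (B : E n → X) (s : ℝ), B 0 = x ∧ Box B ∧ 0 < s ∧ ∀ r ∈ R, 0 < r → r ≤ s →
      ∀ t, |t - t₀| ≤ s → ∀ y : E n, ‖y‖ ≤ s →
      ImmAt ι πM e π (Mol K (fun p => H (t, p)) (fun z => (lam * θ * r) * χ z)) (B y) := by
  have hq0 : 0 ≤ Real.sqrt m / r₀ := by positivity
  obtain ⟨A, hA0, hAd, hiso, s₂, hs₂, hSA⟩ := hx
  obtain ⟨σ, hσ, hσ1, hB⟩ := exists_box0 hAd
  obtain ⟨B, hBd⟩ : ∃ B : E n → X, B = fun z => A (σ • z) := ⟨_, rfl⟩
  have hB0 : B 0 = x := by rw [hBd]; simp only [smul_zero]; exact hA0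
  rw [← hBd] at hB
  have hιA : HasFDerivAt (fun w => ι (A w)) (fderiv ℝ (fun w => ι (A w)) 0) 0 := by
    have h1 : ContDiffAt ℝ ∞ (fun w => ι (A w)) 0 :=
      contMDiffAt_iff_contDiffAt.1 ((hTM.smooth (A 0)).comp 0 hAd.contMDiffAt)
    exact (h1.differentiableAt (by simp)).hasFDerivAt
  have hder : HasFDerivAt (fun w => ι (B w)) ((fderiv ℝ (fun w => ι (A w)) 0).comp
      (σ • ContinuousLinearMap.id ℝ (E n))) 0 := by
    have h1 : HasFDerivAt (fun z : E n => σ • z) (σ • ContinuousLinearMap.id ℝ (E n)) 0 :=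
      (hasFDerivAt_id (0 : E n)).const_smul σ
    have h2 : HasFDerivAt (fun w => ι (A w)) (fderiv ℝ (fun w => ι (A w)) 0)
        (σ • (0 : E n)) := by
      rw [smul_zero]
      exact hιA
    rw [hBd]
    exact HasFDerivAt.comp (g := fun w => ι (A w)) (f := fun z : E n => σ • z) 0 h2 h1
  have hn1 : ∀ v, ‖fderiv ℝ (fun w => ι (B w)) 0 v‖ = lam * σ * ‖v‖ := by
    intro v
    rw [hder.fderiv, ContinuousLinearMap.comp_apply, hiso, _root_.smul_apply,
      ContinuousLinearMap.id_apply, norm_smul, Real.norm_of_nonneg hσ.le]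
    ring
  have hls : 0 < lam * σ := by positivity
  have hS0 : ‖fderiv ℝ (tau πM B) (ι (B 0))‖ ≤ (lam * σ)⁻¹ :=
    S0_le hTM hnM hB hls fun v => (hn1 v).ge
  have hD0 : ‖fderiv ℝ (fun w => ι (B w)) 0‖ ≤ lam * σ :=
    ContinuousLinearMap.opNorm_le_bound _ hls.le fun v => (hn1 v).le
  obtain ⟨τ, hτ⟩ : ∃ τ, τ = (lam * σ * θ)⁻¹ := ⟨_, rfl⟩
  have hτ0 : 0 < τ := by rw [hτ]; positivity
  obtain ⟨s₁, hs₁, -, hcore⟩ := core_fam K hr hTM hι1 hT hn hf hfi hH hρ hHn hχ hB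
    (c₁ := c) (τ := τ) hc0 (by
      refine hS0.trans_lt ?_
      rw [hτ]
      apply inv_strictAnti₀ (by positivity)
      nlinarith) (by
      refine lt_of_le_of_lt ?_ hc
      apply mul_le_mul_of_nonneg_left _ hc0
      have h1 : τ * ‖fderiv ℝ (fun w => ι (B w)) 0‖ ≤ θ⁻¹ := by
        calc τ * ‖fderiv ℝ (fun w => ι (B w)) 0‖ ≤ τ * (lam * σ) :=
              mul_le_mul_of_nonneg_left hD0 hτ0.le
          _ = θ⁻¹ := by rw [hτ]; field_simp
      have h2 := mul_le_mul_of_nonneg_left h1 hq0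
      linarith) t₀
  have hlt : 0 < lam * θ := by positivity
  obtain ⟨s, ⟨e1, e3⟩, hs⟩ := ((small (lam * θ) (D := s₁) hs₁).and
    (small 1 (D := min s₁ s₂) (lt_min hs₁ hs₂))).and self_mem_nhdsWithin |>.exists
  have hs0 : 0 < s := hs
  rw [mul_one] at e3
  have e4 := e3.trans_le (min_le_left _ _)
  have e5 := e3.trans_le (min_le_right _ _)
  refine ⟨B, s, hB0, hB, hs0, fun r hrR hr0 hrs t ht y hy => ?_⟩
  have hδs : lam * θ * r ≤ s * (lam * θ) := by nlinarith
  have hδ0 : 0 < lam * θ * r := by positivity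
  apply hcore (lam * θ * r) hδ0 (hδs.trans e1.le) t (ht.trans e4.le) y (hy.trans e4.le)
    (by rw [hχ1]; exact one_pos)
  have hσn : ∀ p : E n, ‖σ • p‖ = σ * ‖p‖ := fun p => by
    rw [norm_smul, Real.norm_of_nonneg hσ.le]
  obtain ⟨a, L, h⟩ := hSA t (ht.trans e5.le) (σ • y) r (by rw [hσn]; nlinarith [norm_nonneg y])
    hrR hr0 (hrs.trans e5.le)
  refine ⟨a, σ • L, ?_⟩
  have h2 : τ * (lam * θ * r * χ (ι (B y))) = r / σ := by
    rw [hχ1, hτ]
    field_simp
  rw [h2, hBd]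
  intro p hp v hv
  have h3 := h (σ • p) (by
    rw [← smul_sub, hσn]
    rw [le_div_iff₀ hσ] at hp
    linarith) v hv
  rw [_root_.smul_apply, _root_.smul_apply, norm_smul, Real.norm_of_nonneg hσ.le]
  rw [map_smul] at h3
  refine h3.trans (le_of_eq (by field_simp))

end fam

end Pool.Agent.U498.AI
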