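import Pool.Agent.U498.AI.Closed

/-!
# The final statements
-/

set_option autoImplicit false
set_option linter.unusedSectionVars false

open Set Filter Topology Metric Function MeasureTheory
open scoped Manifold ContDiff

noncomputable section

namespace Pool.Agent.U498.AI

open Pool.Agent.Y522 Pool.Agent.U211.BLV Pool.Agent.U498.AC

theorem suff_final (n : ℕ) (X Y : Type) [TopologicalSpace X] [T2Space X] [CompactSpace X]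
    [ConnectedSpace X] [ChartedSpace (EuclideanSpace ℝ (Fin n)) X] [IsManifold (𝓡 n) ∞ X]
    [TopologicalSpace Y] [T2Space Y] [CompactSpace Y]
    [ChartedSpace (EuclideanSpace ℝ (Fin n)) Y] [IsManifold (𝓡 n) ∞ Y]
    (m d : ℕ) (ι : X → EuclideanSpace ℝ (Fin m))
    (hι : ContMDiff (𝓡 n) (𝓡 m) ∞ ι ∧ Injective ι ∧
      ∀ (y : X) (v : EuclideanSpace ℝ (Fin n)),
        fderiv ℝ (fun t => ι ((chartAt (EuclideanSpace ℝ (Fin n)) y).symm t))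
          (chartAt (EuclideanSpace ℝ (Fin n)) y y) v = 0 → v = 0)
    (e : Y → EuclideanSpace ℝ (Fin d))
    (he : ContMDiff (𝓡 n) (𝓡 d) ∞ e ∧ Injective e ∧
      ∀ (y : Y) (v : EuclideanSpace ℝ (Fin n)),
        fderiv ℝ (fun t => e ((chartAt (EuclideanSpace ℝ (Fin n)) y).symm t))
          (chartAt (EuclideanSpace ℝ (Fin n)) y y) v = 0 → v = 0)
    (c : ℝ) (hc0 : 0 ≤ c) (hc : c * (1 + Real.sqrt m) < 1)
    (r : ℕ → ℝ) (hr : ∀ k, 0 < r k) (hr0 : Tendsto r atTop (𝓝 0))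
    (φ₀ φ₁ : X → Y) (h0 : ∃ Φ : X ≃ₘ^∞⟮𝓡 n, 𝓡 n⟯ Y, ∀ x, Φ x = φ₀ x)
    (h1 : ∃ Φ : X ≃ₘ^∞⟮𝓡 n, 𝓡 n⟯ Y, ∀ x, Φ x = φ₁ x)
    (f : ℝ × X → Y)
    (hf : ContinuousOn f (Icc (0 : ℝ) 1 ×ˢ univ) ∧
      (∀ t ∈ Icc (0 : ℝ) 1, Bijective (fun x => f (t, x))) ∧
      (∀ x, f (0, x) = φ₀ x) ∧ ∀ x, f (1, x) = φ₁ x)
    (hfa : ∀ t₀ ∈ Icc (0 : ℝ) 1, ∀ x : X, ∃ A : EuclideanSpace ℝ (Fin n) → X, A 0 = x ∧
      IsLocalDiffeomorphAt (𝓡 n) (𝓡 n) ∞ A 0 ∧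
      (∀ v, ‖fderiv ℝ (fun w => ι (A w)) 0 v‖ = ‖v‖) ∧
      ∃ s > 0, ∃ k₀ : ℕ, ∀ k ≥ k₀, ∀ t ∈ Icc (0 : ℝ) 1, |t - t₀| ≤ s → ∀ y, ‖y‖ ≤ s →
        ∃ (a : EuclideanSpace ℝ (Fin d))
          (L : EuclideanSpace ℝ (Fin n) →L[ℝ] EuclideanSpace ℝ (Fin d)),
          ∀ p, ‖p - y‖ ≤ r k → ∀ v, ‖v‖ = 1 →
            ‖e (f (t, A p)) - (a + L p)‖ ≤ c * (r k * ‖L v‖))
    (ε : ℝ) (hε : ε > 0) :
    ∃ K : ℝ × X → Y, (ContMDiff ((𝓘(ℝ, ℝ)).prod (𝓡 n)) (𝓡 n) ∞ K ∧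
      (∀ t, ∃ Φ : X ≃ₘ^∞⟮𝓡 n, 𝓡 n⟯ Y, ∀ x, Φ x = K (t, x)) ∧
      (∀ x, K (0, x) = φ₀ x) ∧ ∀ x, K (1, x) = φ₁ x) ∧
      ∀ t, ∃ t' ∈ Icc (0 : ℝ) 1, ∀ x, ‖e (K (t, x)) - e (f (t', x))‖ ≤ ε := by
  obtain ⟨Φ₀, e0⟩ := h0
  obtain ⟨Φ₁, e1⟩ := h1
  obtain ⟨hfc, hfb, hf0, hf1⟩ := hf
  obtain ⟨cl, hcl⟩ : ∃ cl : ℝ → ℝ, cl = fun t => max 0 (min 1 t) := ⟨_, rfl⟩
  have hclc : Continuous cl := by rw [hcl]; fun_prop
  have hclI : ∀ t, cl t ∈ Icc (0 : ℝ) 1 := fun t => by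
    rw [hcl]
    exact (clamp_abs (t := t) (t₀ := 0) (by simp)).1
  have hcla : ∀ t t₀, t₀ ∈ Icc (0 : ℝ) 1 → |cl t - t₀| ≤ |t - t₀| := fun t t₀ h => by
    rw [hcl]
    exact (clamp_abs h).2
  have hclx : ∀ t ∈ Icc (0 : ℝ) 1, cl t = t := by
    intro t ht
    have := hcla t t ht
    rw [sub_self, abs_zero] at this
    have h2 := abs_nonpos_iff.1 this
    linarith
  obtain ⟨f', hf'⟩ : ∃ f' : ℝ × X → Y, f' = fun q => f (cl q.1, q.2) := ⟨_, rfl⟩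
  have hf'e : ∀ t x, f' (t, x) = f (cl t, x) := fun t x => by rw [hf']
  have hf'c : Continuous f' := by
    rw [hf']
    apply hfc.comp_continuous (by fun_prop)
    intro q
    exact ⟨hclI _, mem_univ _⟩
  have hf'b : ∀ t, Bijective fun x => f' (t, x) := by
    intro t
    have : (fun x => f' (t, x)) = fun x => f (cl t, x) := funext fun x => hf'e t x
    rw [this]
    exact hfb _ (hclI t)
  have hz : (fun x => f' (0, x)) = Φ₀ := by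
    funext x
    rw [hf'e, hclx 0 (by simp), hf0, e0]
  have ho : (fun x => f' (1, x)) = Φ₁ := by
    funext x
    rw [hf'e, hclx 1 (by simp), hf1, e1]
  obtain ⟨K, k1, k2, k3, k4⟩ := path_closed ι hι.1 hι.2.1 hι.2.2 e he.1 he.2.1 he.2.2 hf'c hf'b
    (R := range r) (fun ε hε => by
        obtain ⟨k, hk⟩ := (hr0.eventually_le_const hε).exists
        exact ⟨r k, mem_range_self k, hr k, hk⟩) hc0 hc (fun t₀ ht₀ x => by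
      obtain ⟨A, hA0, hAd, hiso, s, hs, k₀, h⟩ := hfa t₀ ht₀ x
      refine ⟨A, hA0, hAd, fun v => by rw [hiso, one_mul], ?_⟩
      obtain ⟨t, ht, htk⟩ := Pool.Agent.U211.BL.exists_lower' (fun j : Fin k₀ => r j) (fun j => hr j)
      refine ⟨min s (t / 2), lt_min hs (by positivity), ?_⟩
      rintro t' ht' y _ hy ⟨k, rfl⟩ _ hk
      have hkK : k₀ ≤ k := by
        by_contra hlt
        push Not at hlt
        have h5 := htk ⟨k, hlt⟩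
        simp only at h5
        have h6 := hk.trans (min_le_right _ _)
        linarith
      obtain ⟨a, L, h7⟩ := h k hkK (cl t') (hclI t')
        ((hcla t' t₀ ht₀).trans (ht'.trans (min_le_left _ _))) y (hy.trans (min_le_left _ _))
      refine ⟨a, L, ?_⟩
      intro p hp v hv
      show ‖e (f' (t', A p)) - (a + L p)‖ ≤ c * (r k * ‖L v‖)
      rw [hf'e]
      exact h7 p hp v hv)
    (fun x => by rw [hz]; exact Φ₀.isLocalDiffeomorph x)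
    (fun x => by rw [ho]; exact Φ₁.isLocalDiffeomorph x) hε
  refine ⟨K, ⟨k1, fun t => ?_, fun x => ?_, fun x => ?_⟩, fun t => ?_⟩
  · obtain ⟨b1, b2, -⟩ := k2 t
    have hl : IsLocalDiffeomorph (𝓡 n) (𝓡 n) ∞ (fun x => K (t, x)) := fun x => b2 x
    exact ⟨hl.diffeomorphOfBijective b1, fun x => rfl⟩
  · rw [k3 x]
    show f' (0, x) = φ₀ x
    rw [hf'e, hclx 0 (by simp), hf0]
  · rw [k4 x]
    show f' (1, x) = φ₁ x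
    rw [hf'e, hclx 1 (by simp), hf1]
  · obtain ⟨-, -, t', ht', h⟩ := k2 t
    refine ⟨t', ht', fun x => ?_⟩
    have h2 := h x
    rwa [hf'e, hclx t' ht'] at h2

theorem nec_final (n : ℕ) (X Y : Type) [TopologicalSpace X] [T2Space X] [CompactSpace X]
    [ConnectedSpace X] [ChartedSpace (EuclideanSpace ℝ (Fin n)) X] [IsManifold (𝓡 n) ∞ X]
    [TopologicalSpace Y] [T2Space Y] [CompactSpace Y]
    [ChartedSpace (EuclideanSpace ℝ (Fin n)) Y] [IsManifold (𝓡 n) ∞ Y]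
    (m d : ℕ) (ι : X → EuclideanSpace ℝ (Fin m))
    (hι : ContMDiff (𝓡 n) (𝓡 m) ∞ ι ∧ Injective ι ∧
      ∀ (y : X) (v : EuclideanSpace ℝ (Fin n)),
        fderiv ℝ (fun t => ι ((chartAt (EuclideanSpace ℝ (Fin n)) y).symm t))
          (chartAt (EuclideanSpace ℝ (Fin n)) y y) v = 0 → v = 0)
    (e : Y → EuclideanSpace ℝ (Fin d))
    (he : ContMDiff (𝓡 n) (𝓡 d) ∞ e ∧ Injective e ∧
      ∀ (y : Y) (v : EuclideanSpace ℝ (Fin n)),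
        fderiv ℝ (fun t => e ((chartAt (EuclideanSpace ℝ (Fin n)) y).symm t))
          (chartAt (EuclideanSpace ℝ (Fin n)) y y) v = 0 → v = 0)
    (c : ℝ) (hc0 : 0 < c) (r : ℕ → ℝ) (hr0 : Tendsto r atTop (𝓝 0))
    (φ₀ φ₁ : X → Y)
    (h : ∃ K : ℝ × X → Y, ContMDiff ((𝓘(ℝ, ℝ)).prod (𝓡 n)) (𝓡 n) ∞ K ∧
      (∀ t, ∃ Φ : X ≃ₘ^∞⟮𝓡 n, 𝓡 n⟯ Y, ∀ x, Φ x = K (t, x)) ∧
      (∀ x, K (0, x) = φ₀ x) ∧ ∀ x, K (1, x) = φ₁ x) :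
    ∃ f : ℝ × X → Y, (ContinuousOn f (Icc (0 : ℝ) 1 ×ˢ univ) ∧
      (∀ t ∈ Icc (0 : ℝ) 1, Bijective (fun x => f (t, x))) ∧
      (∀ x, f (0, x) = φ₀ x) ∧ ∀ x, f (1, x) = φ₁ x) ∧
    ∀ t₀ ∈ Icc (0 : ℝ) 1, ∀ x : X, ∃ A : EuclideanSpace ℝ (Fin n) → X, A 0 = x ∧
      IsLocalDiffeomorphAt (𝓡 n) (𝓡 n) ∞ A 0 ∧
      (∀ v, ‖fderiv ℝ (fun w => ι (A w)) 0 v‖ = ‖v‖) ∧
      ∃ s > 0, ∃ k₀ : ℕ, ∀ k ≥ k₀, ∀ t ∈ Icc (0 : ℝ) 1, |t - t₀| ≤ s → ∀ y, ‖y‖ ≤ s →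
        ∃ (a : EuclideanSpace ℝ (Fin d))
          (L : EuclideanSpace ℝ (Fin n) →L[ℝ] EuclideanSpace ℝ (Fin d)),
          ∀ p, ‖p - y‖ ≤ r k → ∀ v, ‖v‖ = 1 →
            ‖e (f (t, A p)) - (a + L p)‖ ≤ c * (r k * ‖L v‖) := by
  obtain ⟨K, k1, k2, k3, k4⟩ := h
  have hneX : Nonempty X := inferInstance
  have hneY : Nonempty Y := by
    obtain ⟨x⟩ := hneX
    exact ⟨K (0, x)⟩
  obtain ⟨πM, hTM, -⟩ := exists_tub_near ι hι.1 hι.2.1 hι.2.2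
  obtain ⟨π, hT, -⟩ := exists_tub_near e he.1 he.2.1 he.2.2
  refine ⟨K, ⟨k1.continuous.continuousOn, fun t _ => ?_, k3, k4⟩, fun t₀ _ x => ?_⟩
  · obtain ⟨Φ, hΦ⟩ := k2 t
    have : (fun x => K (t, x)) = Φ := funext fun x => (hΦ x).symm
    rw [this]
    exact Φ.bijective
  · have hld : LD n (fun x => K (t₀, x)) x := by
      obtain ⟨Φ, hΦ⟩ := k2 t₀
      have : (fun x => K (t₀, x)) = Φ := funext fun x => (hΦ x).symm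
      rw [this]
      exact Φ.isLocalDiffeomorph x
    obtain ⟨A, hA0, hAd, hiso, s, hs, h⟩ := aff_of_smooth hTM hT k1 hld hc0
    refine ⟨A, hA0, hAd, hiso, s, hs, ?_⟩
    obtain ⟨k₀, hk₀⟩ := eventually_atTop.1 (hr0.eventually_le_const hs)
    refine ⟨k₀, fun k hk t _ ht y hy => ?_⟩
    obtain ⟨a, L, h2⟩ := h t ht y (r k) hy (hk₀ k hk)
    exact ⟨a, L, h2⟩

end Pool.Agent.U498.AI
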