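import Pool.Agent.U498.AI.Iso

/-!
# Immersions in the ambient space
-/

set_option autoImplicit false
set_option linter.unusedSectionVars false

open Set Filter Topology Metric Function
open scoped Manifold ContDiff

noncomputable section

namespace Pool.Agent.U498.AI

open Pool.Agent.Y522 Pool.Agent.U211.BLV Pool.Agent.U498.AC

variable {n m d : ℕ} {X Y : Type} [TopologicalSpace X] [ChartedSpace (E n) X] [T2Space X]
  [IsManifold (𝓡 n) ∞ X] [TopologicalSpace Y] [ChartedSpace (E n) Y] [IsManifold (𝓡 n) ∞ Y]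

/-- unit tangent vectors -/
def Tn (ι : X → E m) (πM : E m → X) (x : X) (w : E m) : Prop :=
  ‖w‖ = 1 ∧ fderiv ℝ (PP ι πM) (ι x) w = w

/-- the composition is an immersion at `x` -/
def ImmAt (ι : X → E m) (πM : E m → X) (e : Y → E d) (π : E d → Y) (Q : E m → E d) (x : X) :
    Prop :=
  ∀ w, Tn ι πM x w → fderiv ℝ (PP e π) (Q (ι x)) (fderiv ℝ Q (ι x) w) ≠ 0

theorem ld_of_imm {ι : X → E m} {πM : E m → X} (hTM : Tub n ι πM) {e : Y → E d} {π : E d → Y}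
    (hT : Tub n e π) {Q : E m → E d} {x : X} (hQ : ∀ᶠ p in 𝓝 (ι x), ContDiffAt ℝ ∞ Q p)
    (hπ : ∀ᶠ q in 𝓝 (Q (ι x)), ContMDiffAt (𝓡 d) (𝓡 n) ∞ π q)
    (h : ImmAt ι πM e π Q x) : LD n (fun x => π (Q (ι x))) x := by
  obtain ⟨A₀, hA₀0, hA₀⟩ := exists_param (n := n) x
  obtain ⟨σ, hσ, hσ1, hB'⟩ := exists_box0 hA₀
  obtain ⟨A, hAd⟩ : ∃ A : E n → X, A = fun z => A₀ (σ • z) := ⟨_, rfl⟩
  rw [← hAd] at hB'
  have hA0 : A 0 = x := by rw [hAd]; simp only [smul_zero]; exact hA₀0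
  subst hA0
  have hA := hB'
  have hιA := iota_smooth hTM hA
  have hder : HasFDerivAt (fun w => ι (A w)) (fderiv ℝ (fun w => ι (A w)) 0) 0 :=
    ((hιA 0 (by simp)).differentiableAt (by simp)).hasFDerivAt
  have hQd : HasFDerivAt Q (fderiv ℝ Q (ι (A 0))) (ι (A 0)) :=
    (hQ.self_of_nhds.differentiableAt (by simp)).hasFDerivAt
  apply LD_of_box' hA (by simp)
  show LD n (fun w => π (Q (ι (A w)))) 0
  refine comp_box hT (G := fun w => Q (ι (A w)))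
    (V := (fderiv ℝ Q (ι (A 0))).comp (fderiv ℝ (fun w => ι (A w)) 0)) ?_ ?_ hπ ?_
  · have h1 : ∀ᶠ w in 𝓝 (0 : E n), ‖w‖ < 2 := continuous_norm.continuousAt.eventually_lt_const
      (by simp)
    filter_upwards [h1, hder.continuousAt.eventually hQ] with w hw1 hw2
    exact ContDiffAt.comp (g := Q) (f := fun w => ι (A w)) w hw2 (hιA w hw1.le)
  · exact HasFDerivAt.comp (g := Q) (f := fun w => ι (A w)) 0 hQd hder
  · intro u hu
    have hu0 : u ≠ 0 := by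
      intro h5
      rw [h5, norm_zero] at hu
      exact zero_ne_one hu
    obtain ⟨w', hw'⟩ : ∃ w', w' = fderiv ℝ (fun w => ι (A w)) 0 u := ⟨_, rfl⟩
    have hw0 : w' ≠ 0 := by
      rw [hw']
      exact imm_of_LD hTM (hA.ld 0 (by simp)) hder hu0
    have hwt : fderiv ℝ (PP ι πM) (ι (A 0)) w' = w' := by
      have h1 := (PP_hasFDerivAt hTM (A 0)).comp 0 hder
      have h3 : (PP ι πM) ∘ (fun y => ι (A y)) = fun y => ι (A y) := by
        funext w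
        exact PP_fix hTM _
      rw [h3] at h1
      have h6 := congrArg (fun T : E n →L[ℝ] E m => T u) (h1.unique hder)
      rw [hw']
      exact h6
    have hn0 : ‖w'‖ ≠ 0 := norm_ne_zero_iff.2 hw0
    have h2 := h (‖w'‖⁻¹ • w') ⟨by rw [norm_smul, norm_inv, norm_norm, inv_mul_cancel₀ hn0],
      by rw [map_smul, hwt]⟩
    rw [map_smul, map_smul] at h2
    rw [ContinuousLinearMap.comp_apply, ← hw']
    intro h3
    rw [h3, smul_zero] at h2
    exact h2 rfl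

/-- tangent vectors in a box -/
theorem lift_tn {ι : X → E m} {πM : E m → X} (hTM : Tub n ι πM) {T : E m → E n} {A : E n → X}
    {Λ s : ℝ} {y : E n} (hs : 0 < s) (hg : Good1 ι T A ι (PP ι πM) Λ s y)
    (hTs : ContDiff ℝ ∞ T) {w : E m} (hw : fderiv ℝ (PP ι πM) (ι (A y)) w = w) :
    fderiv ℝ (fun w => ι (A w)) y (fderiv ℝ T (ι (A y)) w) = w := by
  have h1 : HasFDerivAt T (fderiv ℝ T (ι (A y))) (ι (A y)) :=
    ((hTs.differentiable (by simp)).differentiableAt).hasFDerivAt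
  have h2 : HasFDerivAt (fun w => ι (A w)) (fderiv ℝ (fun w => ι (A w)) y) (T (ι (A y))) := by
    rw [hg.fix]
    exact hg.der
  have h3 := h2.comp (ι (A y)) h1
  have h4 : PP ι πM =ᶠ[𝓝 (ι (A y))] (fun w => ι (A w)) ∘ T := by
    filter_upwards [closedBall_mem_nhds (ι (A y)) hs] with q hq
    rw [mem_closedBall, dist_eq_norm] at hq
    have := hg.eq (q - ι (A y)) hq
    rw [add_sub_cancel] at this
    exact this
  have h5 := (h3.congr_of_eventuallyEq h4).unique (PP_hasFDerivAt hTM (A y))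
  have h6 := congrArg (fun L : E m →L[ℝ] E m => L w) h5
  simp only [ContinuousLinearMap.comp_apply] at h6
  rw [h6, hw]

/-- **Straight line paths.** -/
theorem iso_conv [CompactSpace X] [ConnectedSpace X] [CompactSpace Y] [T2Space Y]
    {ι : X → E m} {πM : E m → X} (hTM : Tub n ι πM) {e : Y → E d} {π : E d → Y}
    (hT : Tub n e π) (hn : ∀ p y, ‖p - e (π p)‖ ≤ ‖p - e y‖) {τ : ℝ} (hτ0 : 0 < τ)
    (hτ : ∀ y : Y, ∀ p : E d, ‖p - e y‖ ≤ τ → ContMDiffAt (𝓡 d) (𝓡 n) ∞ π p) (g : X ≃ₜ Y)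
    {Q₀ Q₁ : E m → E d} (h0 : ∀ x, ∀ᶠ p in 𝓝 (ι x), ContDiffAt ℝ ∞ Q₀ p)
    (h1 : ∀ x, ∀ᶠ p in 𝓝 (ι x), ContDiffAt ℝ ∞ Q₁ p)
    (c0 : ∀ x, ‖Q₀ (ι x) - e (g x)‖ ≤ τ / 2) (c1 : ∀ x, ‖Q₁ (ι x) - e (g x)‖ ≤ τ / 2)
    (himm : ∀ s ∈ Icc (0 : ℝ) 1, ∀ x, ImmAt ι πM e π (fun p => (1 - s) • Q₀ p + s • Q₁ p) x) :
    Iso n (fun φ : X → Y => Bijective φ ∧ (∀ x, LD n φ x) ∧ ∀ x, ‖e (φ x) - e (g x)‖ ≤ τ)
      (fun x => π (Q₀ (ι x))) (fun x => π (Q₁ (ι x))) := by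
  have hcl : ∀ s ∈ Icc (0 : ℝ) 1, ∀ x, ‖((1 - s) • Q₀ (ι x) + s • Q₁ (ι x)) - e (g x)‖ ≤ τ / 2 := by
    intro s hs x
    have h2 : ((1 - s) • Q₀ (ι x) + s • Q₁ (ι x)) - e (g x) =
        (1 - s) • (Q₀ (ι x) - e (g x)) + s • (Q₁ (ι x) - e (g x)) := by module
    rw [h2]
    refine (norm_add_le _ _).trans ?_
    rw [norm_smul, norm_smul, Real.norm_of_nonneg hs.1, Real.norm_of_nonneg (by linarith [hs.2])]
    have h3 := mul_le_mul_of_nonneg_left (c0 x) (by linarith [hs.2] : 0 ≤ 1 - s)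
    have h4 := mul_le_mul_of_nonneg_left (c1 x) hs.1
    linarith
  obtain ⟨σ, hσ⟩ : ∃ σ : ℝ → ℝ, σ = Real.smoothTransition := ⟨_, rfl⟩
  have hσs : ContDiff ℝ ∞ σ := by rw [hσ]; exact Real.smoothTransition.contDiff
  have hσ01 : ∀ t, σ t ∈ Icc (0 : ℝ) 1 := by
    intro t
    rw [hσ]
    exact ⟨Real.smoothTransition.nonneg t, Real.smoothTransition.le_one t⟩
  refine ⟨fun p => π ((1 - σ p.1) • Q₀ (ι p.2) + σ p.1 • Q₁ (ι p.2)), ?_, ?_, ?_, ?_⟩
  · rintro ⟨t, x⟩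
    have hπ : ContMDiffAt (𝓡 d) (𝓡 n) ∞ π ((1 - σ t) • Q₀ (ι x) + σ t • Q₁ (ι x)) :=
      hτ (g x) _ ((hcl _ (hσ01 t) x).trans (by linarith))
    have hσM : ContMDiffAt ((𝓘(ℝ, ℝ)).prod (𝓡 n)) 𝓘(ℝ, ℝ) ∞ (fun p : ℝ × X => σ p.1) (t, x) :=
      (hσs.contMDiff.comp contMDiff_fst) (t, x)
    have hσM' : ContMDiffAt ((𝓘(ℝ, ℝ)).prod (𝓡 n)) 𝓘(ℝ, ℝ) ∞ (fun p : ℝ × X => 1 - σ p.1)
        (t, x) :=
      (((contDiff_const.sub hσs : ContDiff ℝ ∞ fun t => 1 - σ t)).contMDiff.comp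
        contMDiff_fst) (t, x)
    have hι : ContMDiffAt ((𝓘(ℝ, ℝ)).prod (𝓡 n)) (𝓡 m) ∞ (fun p : ℝ × X => ι p.2) (t, x) :=
      (hTM.smooth.comp contMDiff_snd) (t, x)
    have hQ0 : ContMDiffAt ((𝓘(ℝ, ℝ)).prod (𝓡 n)) (𝓡 d) ∞ (fun p : ℝ × X => Q₀ (ι p.2)) (t, x) :=
      ContMDiffAt.comp (I' := 𝓡 m) (g := Q₀) (f := fun p : ℝ × X => ι p.2) (t, x)
        (contMDiffAt_iff_contDiffAt.2 (h0 x).self_of_nhds) hι
    have hQ1 : ContMDiffAt ((𝓘(ℝ, ℝ)).prod (𝓡 n)) (𝓡 d) ∞ (fun p : ℝ × X => Q₁ (ι p.2)) (t, x) :=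
      ContMDiffAt.comp (I' := 𝓡 m) (g := Q₁) (f := fun p : ℝ × X => ι p.2) (t, x)
        (contMDiffAt_iff_contDiffAt.2 (h1 x).self_of_nhds) hι
    exact ContMDiffAt.comp (I' := 𝓡 d) (g := π)
      (f := fun p : ℝ × X => (1 - σ p.1) • Q₀ (ι p.2) + σ p.1 • Q₁ (ι p.2)) (t, x) hπ
      ((hσM'.smul hQ0).add (hσM.smul hQ1))
  · intro t
    obtain ⟨Q, hQ⟩ : ∃ Q : E m → E d, Q = fun p => (1 - σ t) • Q₀ p + σ t • Q₁ p := ⟨_, rfl⟩
    have hQe : ∀ x, Q (ι x) = (1 - σ t) • Q₀ (ι x) + σ t • Q₁ (ι x) := fun x => by rw [hQ]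
    have hld : ∀ x, LD n (fun x => π (Q (ι x))) x := by
      intro x
      apply ld_of_imm hTM hT
      · filter_upwards [h0 x, h1 x] with p hp0 hp1
        rw [hQ]
        exact (hp0.const_smul _).add (hp1.const_smul _)
      · have h2 : ∀ᶠ q in 𝓝 (Q (ι x)), ‖q - e (g x)‖ < τ := by
          have h3 : Continuous fun q : E d => ‖q - e (g x)‖ := by fun_prop
          apply h3.continuousAt.eventually_lt_const
          have := hcl _ (hσ01 t) x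
          rw [← hQe] at this
          linarith
        filter_upwards [h2] with q hq
        exact hτ _ _ hq.le
      · rw [hQ]
        exact himm _ (hσ01 t) x
    have hfun : (fun x => π ((1 - σ t) • Q₀ (ι x) + σ t • Q₁ (ι x))) = fun x => π (Q (ι x)) := by
      funext x
      rw [hQe]
    show Bijective (fun x => π ((1 - σ t) • Q₀ (ι x) + σ t • Q₁ (ι x))) ∧
      (∀ x, LD n (fun x => π ((1 - σ t) • Q₀ (ι x) + σ t • Q₁ (ι x))) x) ∧
      ∀ x, ‖e (π ((1 - σ t) • Q₀ (ι x) + σ t • Q₁ (ι x))) - e (g x)‖ ≤ τ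
    rw [hfun]
    have hcl2 : ∀ x, ‖e (π (Q (ι x))) - e (g x)‖ ≤ τ := ?_
    · refine ⟨bij_of_close hT g hld hτ hcl2, hld, fun x => ?_⟩
      rw [← hQe]
      exact hcl2 x
    intro x
    have h2 := hn (Q (ι x)) (g x)
    have h3 := hcl _ (hσ01 t) x
    rw [← hQe] at h3
    have h4 : e (π (Q (ι x))) - e (g x) = (Q (ι x) - e (g x)) - (Q (ι x) - e (π (Q (ι x)))) := by
      abel
    rw [h4]
    refine (norm_sub_le _ _).trans ?_
    linarith
  · intro x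
    have : σ 0 = 0 := by rw [hσ]; exact Real.smoothTransition.zero
    simp only [this, sub_zero, one_smul, zero_smul, add_zero]
  · intro x
    have : σ 1 = 1 := by rw [hσ]; exact Real.smoothTransition.one
    simp only [this, sub_self, one_smul, zero_smul, zero_add]

/-- **Robustness.** -/
theorem robust [CompactSpace X] {ι : X → E m} {πM : E m → X} (hTM : Tub n ι πM) {e : Y → E d}
    {π : E d → Y} (hT : Tub n e π) {Q : E m → E d}
    (hQ : ∀ x, ∀ᶠ p in 𝓝 (ι x), ContDiffAt ℝ ∞ Q p)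
    (hπ : ∀ x, ContMDiffAt (𝓡 d) (𝓡 n) ∞ π (Q (ι x)))
    (himm : ∀ x, ImmAt ι πM e π Q x) :
    ∃ ε : ℝ, 0 < ε ∧ ∀ x w, Tn ι πM x w → ∀ q V : E d, ‖q - Q (ι x)‖ ≤ ε →
      ‖V - fderiv ℝ Q (ι x) w‖ ≤ ε → fderiv ℝ (PP e π) q V ≠ 0 := by
  obtain ⟨S, hS⟩ : ∃ S : Set (X × E m), S = {p | Tn ι πM p.1 p.2} := ⟨_, rfl⟩
  have hιc : Continuous ι := hTM.smooth.continuous
  have hc1 : Continuous fun p : X × E m => fderiv ℝ (PP ι πM) (ι p.1) p.2 := by
    rw [continuous_iff_continuousAt]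
    rintro ⟨x, w⟩
    have h1 : ContinuousAt (fderiv ℝ (PP ι πM)) (ι x) :=
      ((PP_smooth hTM (hTM.near x).self_of_nhds).fderiv_right (m := 0) (by simp)).continuousAt
    have h2 : ContinuousAt (fun p : X × E m => fderiv ℝ (PP ι πM) (ι p.1)) (x, w) :=
      ContinuousAt.comp (g := fderiv ℝ (PP ι πM)) (f := fun p : X × E m => ι p.1) h1
        (hιc.comp continuous_fst).continuousAt
    exact h2.clm_apply continuous_snd.continuousAt
  have hSc : IsCompact S := by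
    have h1 : IsClosed S := by
      rw [hS]
      exact (isClosed_eq (continuous_norm.comp continuous_snd) continuous_const).inter
        (isClosed_eq hc1 continuous_snd)
    have h2 : IsCompact ((univ : Set X) ×ˢ closedBall (0 : E m) 1) :=
      isCompact_univ.prod (isCompact_closedBall _ _)
    refine h2.of_isClosed_subset h1 ?_
    rintro ⟨x, w⟩ hxw
    rw [hS] at hxw
    exact ⟨mem_univ _, by rw [mem_closedBall_zero_iff]; exact hxw.1.le⟩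
  obtain ⟨φ, hφ⟩ : ∃ φ : X × E m → E d × E d, φ = fun p => (Q (ι p.1), fderiv ℝ Q (ι p.1) p.2) :=
    ⟨_, rfl⟩
  have hφc : Continuous φ := by
    rw [continuous_iff_continuousAt]
    rintro ⟨x, w⟩
    rw [hφ]
    have h0 : ContinuousAt Q (ι x) := (hQ x).self_of_nhds.continuousAt
    have h1 : ContinuousAt (fderiv ℝ Q) (ι x) :=
      ((hQ x).self_of_nhds.fderiv_right (m := 0) (by simp)).continuousAt
    have hc : ContinuousAt (fun p : X × E m => ι p.1) (x, w) :=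
      (hιc.comp continuous_fst).continuousAt
    have h2 : ContinuousAt (fun p : X × E m => fderiv ℝ Q (ι p.1)) (x, w) :=
      ContinuousAt.comp (g := fderiv ℝ Q) (f := fun p : X × E m => ι p.1) h1 hc
    have h3 : ContinuousAt (fun p : X × E m => Q (ι p.1)) (x, w) :=
      ContinuousAt.comp (g := Q) (f := fun p : X × E m => ι p.1) h0 hc
    exact h3.prodMk (h2.clm_apply continuous_snd.continuousAt)
  obtain ⟨U, hU⟩ : ∃ U : Set (E d × E d), U = interior {p | fderiv ℝ (PP e π) p.1 p.2 ≠ 0} :=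
    ⟨_, rfl⟩
  have hUo : IsOpen U := by rw [hU]; exact isOpen_interior
  have hsub : φ '' S ⊆ U := by
    rintro _ ⟨⟨x, w⟩, hxw, rfl⟩
    rw [hS] at hxw
    rw [hU, mem_interior_iff_mem_nhds, hφ]
    have h1 : ContinuousAt (fderiv ℝ (PP e π)) (Q (ι x)) :=
      ((PP_smooth hT (hπ x)).fderiv_right (m := 0) (by simp)).continuousAt
    have h2 : ContinuousAt (fun p : E d × E d => fderiv ℝ (PP e π) p.1)
        (Q (ι x), fderiv ℝ Q (ι x) w) :=
      ContinuousAt.comp (g := fderiv ℝ (PP e π)) (f := fun p : E d × E d => p.1) h1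
        continuous_fst.continuousAt
    have h3 : ContinuousAt (fun p : E d × E d => fderiv ℝ (PP e π) p.1 p.2)
        (Q (ι x), fderiv ℝ Q (ι x) w) := h2.clm_apply continuous_snd.continuousAt
    exact h3.eventually_ne (himm x w hxw)
  obtain ⟨ε, hε, hεU⟩ := (hSc.image hφc).exists_cthickening_subset_open hUo hsub
  refine ⟨ε, hε, fun x w hxw q V hq hV => ?_⟩
  have h1 : ((q, V) : E d × E d) ∈ cthickening ε (φ '' S) := by
    apply mem_cthickening_of_dist_le (q, V) (φ (x, w)) ε _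
      (mem_image_of_mem _ (by rw [hS]; exact hxw))
    rw [hφ, Prod.dist_eq, dist_eq_norm, dist_eq_norm]
    exact max_le hq hV
  have h2 := hεU h1
  rw [hU] at h2
  exact interior_subset h2

/-- **Nearby maps.** -/
theorem iso_near [CompactSpace X] [ConnectedSpace X] [CompactSpace Y] [T2Space Y]
    {ι : X → E m} {πM : E m → X} (hTM : Tub n ι πM) {e : Y → E d} {π : E d → Y}
    (hT : Tub n e π) (hn : ∀ p y, ‖p - e (π p)‖ ≤ ‖p - e y‖) {τ : ℝ} (hτ0 : 0 < τ)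
    (hτ : ∀ y : Y, ∀ p : E d, ‖p - e y‖ ≤ τ → ContMDiffAt (𝓡 d) (𝓡 n) ∞ π p) (g : X ≃ₜ Y)
    {Q₀ : E m → E d} (h0 : ∀ x, ∀ᶠ p in 𝓝 (ι x), ContDiffAt ℝ ∞ Q₀ p)
    (c0 : ∀ x, ‖Q₀ (ι x) - e (g x)‖ ≤ τ / 4) (himm : ∀ x, ImmAt ι πM e π Q₀ x) :
    ∃ ε : ℝ, 0 < ε ∧ ∀ Q₁ : E m → E d, (∀ x, ∀ᶠ p in 𝓝 (ι x), ContDiffAt ℝ ∞ Q₁ p) →
      (∀ x, ‖Q₁ (ι x) - Q₀ (ι x)‖ ≤ ε) →
      (∀ x w, Tn ι πM x w → ‖fderiv ℝ Q₁ (ι x) w - fderiv ℝ Q₀ (ι x) w‖ ≤ ε) →
      Iso n (fun φ : X → Y => Bijective φ ∧ (∀ x, LD n φ x) ∧ ∀ x, ‖e (φ x) - e (g x)‖ ≤ τ)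
        (fun x => π (Q₀ (ι x))) (fun x => π (Q₁ (ι x))) := by
  obtain ⟨ε, hε, hεr⟩ := robust hTM hT h0 (fun x => hτ (g x) _ ((c0 x).trans (by linarith))) himm
  refine ⟨min ε (τ / 4), lt_min hε (by positivity), fun Q₁ h1 e1 e2 => ?_⟩
  refine iso_conv hTM hT hn hτ0 hτ g h0 h1 (fun x => (c0 x).trans (by linarith)) (fun x => ?_) ?_
  · have h2 : Q₁ (ι x) - e (g x) = (Q₁ (ι x) - Q₀ (ι x)) + (Q₀ (ι x) - e (g x)) := by abel
    rw [h2]
    refine (norm_add_le _ _).trans ?_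
    have h3 := (e1 x).trans (min_le_right _ _)
    linarith [c0 x]
  · intro s hs x w hw
    have hd0 : HasFDerivAt Q₀ (fderiv ℝ Q₀ (ι x)) (ι x) :=
      ((h0 x).self_of_nhds.differentiableAt (by simp)).hasFDerivAt
    have hd1 : HasFDerivAt Q₁ (fderiv ℝ Q₁ (ι x)) (ι x) :=
      ((h1 x).self_of_nhds.differentiableAt (by simp)).hasFDerivAt
    have hd : HasFDerivAt (fun p => (1 - s) • Q₀ p + s • Q₁ p)
        ((1 - s) • fderiv ℝ Q₀ (ι x) + s • fderiv ℝ Q₁ (ι x)) (ι x) :=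
      (hd0.const_smul (1 - s)).add (hd1.const_smul s)
    rw [hd.fderiv]
    have hs1 := hs.1
    have hs2 := hs.2
    apply hεr x w hw
    · have h2 : ((1 - s) • Q₀ (ι x) + s • Q₁ (ι x)) - Q₀ (ι x) = s • (Q₁ (ι x) - Q₀ (ι x)) := by
        module
      rw [h2, norm_smul, Real.norm_of_nonneg hs1]
      have h3 := (e1 x).trans (min_le_left _ _)
      nlinarith [norm_nonneg (Q₁ (ι x) - Q₀ (ι x))]
    · have h2 : ((1 - s) • fderiv ℝ Q₀ (ι x) + s • fderiv ℝ Q₁ (ι x)) w - fderiv ℝ Q₀ (ι x) w =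
          s • (fderiv ℝ Q₁ (ι x) w - fderiv ℝ Q₀ (ι x) w) := by
        rw [_root_.add_apply, _root_.smul_apply, _root_.smul_apply]
        module
      rw [h2, norm_smul, Real.norm_of_nonneg hs1]
      have h3 := (e2 x w hw).trans (min_le_left _ _)
      nlinarith [norm_nonneg (fderiv ℝ Q₁ (ι x) w - fderiv ℝ Q₀ (ι x) w)]

end Pool.Agent.U498.AI
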