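import Pool.Agent.U498.AC.Main

/-!
# Smooth paths of maps
-/

set_option autoImplicit false
set_option linter.unusedSectionVars false

open Set Filter Topology Metric Function
open scoped Manifold ContDiff

noncomputable section

namespace Pool.Agent.U498.AI

open Pool.Agent.Y522 Pool.Agent.U211.BLV

variable {n : ℕ} {X Y : Type} [TopologicalSpace X] [ChartedSpace (E n) X]
  [TopologicalSpace Y] [ChartedSpace (E n) Y]

/-- joined by a smooth path of maps with the property `P` -/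
def Iso (n : ℕ) {X Y : Type} [TopologicalSpace X] [ChartedSpace (E n) X]
    [TopologicalSpace Y] [ChartedSpace (E n) Y] (P : (X → Y) → Prop) (φ₀ φ₁ : X → Y) : Prop :=
  ∃ K : ℝ × X → Y, ContMDiff ((𝓘(ℝ, ℝ)).prod (𝓡 n)) (𝓡 n) ∞ K ∧
    (∀ t, P (fun x => K (t, x))) ∧ (∀ x, K (0, x) = φ₀ x) ∧ ∀ x, K (1, x) = φ₁ x

/-- reparametrization -/
theorem reparam {K : ℝ × X → Y} (hK : ContMDiff ((𝓘(ℝ, ℝ)).prod (𝓡 n)) (𝓡 n) ∞ K) {σ : ℝ → ℝ}
    (hσ : ContDiff ℝ ∞ σ) :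
    ContMDiff ((𝓘(ℝ, ℝ)).prod (𝓡 n)) (𝓡 n) ∞ (fun p : ℝ × X => K (σ p.1, p.2)) :=
  hK.comp ((hσ.contMDiff.comp contMDiff_fst).prodMk contMDiff_snd)

theorem Iso.symm {P : (X → Y) → Prop} {φ₀ φ₁ : X → Y} (h : Iso n P φ₀ φ₁) : Iso n P φ₁ φ₀ := by
  obtain ⟨K, h1, h2, h3, h4⟩ := h
  refine ⟨fun p => K (1 - p.1, p.2), reparam h1 (σ := fun t => 1 - t) (by fun_prop),
    fun t => h2 (1 - t), fun x => ?_, fun x => ?_⟩
  · simp only [sub_zero]
    exact h4 x
  · simp only [sub_self]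
    exact h3 x

theorem Iso.trans {P : (X → Y) → Prop} {φ₀ φ₁ φ₂ : X → Y} (h : Iso n P φ₀ φ₁)
    (h' : Iso n P φ₁ φ₂) : Iso n P φ₀ φ₂ := by
  classical
  obtain ⟨K, h1, h2, h3, h4⟩ := h
  obtain ⟨L, l1, l2, l3, l4⟩ := h'
  obtain ⟨α, hα⟩ : ∃ α : ℝ → ℝ, α = fun t => Real.smoothTransition (3 * t) := ⟨_, rfl⟩
  obtain ⟨β, hβ⟩ : ∃ β : ℝ → ℝ, β = fun t => Real.smoothTransition (3 * t - 2) := ⟨_, rfl⟩
  have hαs : ContDiff ℝ ∞ α := by
    rw [hα]
    exact Real.smoothTransition.contDiff.comp (by fun_prop)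
  have hβs : ContDiff ℝ ∞ β := by
    rw [hβ]
    exact Real.smoothTransition.contDiff.comp (by fun_prop)
  have hα0 : α 0 = 0 := by
    rw [hα]
    exact Real.smoothTransition.zero_of_nonpos (by norm_num)
  have hβ1 : β 1 = 1 := by
    rw [hβ]
    exact Real.smoothTransition.one_of_one_le (by norm_num)
  have hα1 : ∀ t, 1 / 3 ≤ t → α t = 1 := by
    intro t ht
    rw [hα]
    exact Real.smoothTransition.one_of_one_le (by linarith)
  have hβ0 : ∀ t, t ≤ 2 / 3 → β t = 0 := by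
    intro t ht
    rw [hβ]
    exact Real.smoothTransition.zero_of_nonpos (by linarith)
  have k1 := reparam h1 hαs
  have k2 := reparam l1 hβs
  have hmid : ∀ t x, 1 / 3 ≤ t → t ≤ 2 / 3 → K (α t, x) = L (β t, x) := by
    intro t x ht ht'
    rw [hα1 t ht, hβ0 t ht', h4, l3]
  refine ⟨fun p => if p.1 ≤ 1 / 2 then K (α p.1, p.2) else L (β p.1, p.2), ?_, ?_, ?_, ?_⟩
  · rintro ⟨t, x⟩
    by_cases ht : t < 2 / 3
    · refine (k1 (t, x)).congr_of_eventuallyEq ?_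
      have h5 : ∀ᶠ p : ℝ × X in 𝓝 (t, x), p.1 < 2 / 3 :=
        continuous_fst.continuousAt.eventually_lt_const ht
      filter_upwards [h5] with p hp
      by_cases hp2 : p.1 ≤ 1 / 2
      · simp only [if_pos hp2]
      · simp only [if_neg hp2]
        rw [hmid p.1 p.2 (by linarith [not_le.1 hp2]) hp.le]
    · refine (k2 (t, x)).congr_of_eventuallyEq ?_
      have h5 : ∀ᶠ p : ℝ × X in 𝓝 (t, x), 1 / 2 < p.1 :=
        continuous_fst.continuousAt.eventually_const_lt (by show 1 / 2 < t; linarith [not_lt.1 ht])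
      filter_upwards [h5] with p hp
      simp only [if_neg (not_le.2 hp)]
  · intro t
    by_cases ht : t ≤ 1 / 2
    · simp only [if_pos ht]
      exact h2 (α t)
    · simp only [if_neg ht]
      exact l2 (β t)
  · intro x
    have : (0 : ℝ) ≤ 1 / 2 := by norm_num
    simp only [if_pos this, hα0]
    exact h3 x
  · intro x
    have : ¬ (1 : ℝ) ≤ 1 / 2 := by norm_num
    simp only [if_neg this, hβ1]
    exact l4 x

theorem Iso.mono {P P' : (X → Y) → Prop} {φ₀ φ₁ : X → Y} (hP : ∀ φ, P φ → P' φ)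
    (h : Iso n P φ₀ φ₁) : Iso n P' φ₀ φ₁ := by
  obtain ⟨K, h1, h2, h3⟩ := h
  exact ⟨K, h1, fun t => hP _ (h2 t), h3⟩

/-- the constant path -/
theorem Iso.refl {P : (X → Y) → Prop} {φ : X → Y} (h : ContMDiff (𝓡 n) (𝓡 n) ∞ φ) (hP : P φ) :
    Iso n P φ φ :=
  ⟨fun p => φ p.2, h.comp contMDiff_snd, fun _ => hP, fun _ => rfl, fun _ => rfl⟩

end Pool.Agent.U498.AI
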