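import Pool.Agent.U498.AI.Fam

/-!
# Paths of homeomorphisms which are close to affine maps at small scales
-/

set_option autoImplicit false
set_option linter.unusedSectionVars false

open Set Filter Topology Metric Function MeasureTheory
open scoped Manifold ContDiff

noncomputable section

namespace Pool.Agent.U498.AI

open Pool.Agent.Y522 Pool.Agent.U211.BLV Pool.Agent.U498.AC
open Pool.Agent.U211.BL hiding Mol LL LL_apply moll_congr moll_const moll_cont moll_conv moll_pos moll_joint moll_null mollS k_smul_integrable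

variable {n m d : ℕ} {X Y : Type} [TopologicalSpace X] [ChartedSpace (E n) X] [T2Space X]
  [IsManifold (𝓡 n) ∞ X] [TopologicalSpace Y] [ChartedSpace (E n) Y] [IsManifold (𝓡 n) ∞ Y]

/-- the maps at the ends -/
theorem imm_end {ι : X → E m} {πM : E m → X} (hTM : Tub n ι πM) {e : Y → E d} {π : E d → Y}
    (hT : Tub n e π) {g : X → Y} {G : E m → E d} {x : X}
    (hG : ∀ᶠ p in 𝓝 (ι x), G p = e (g (πM p))) (hg : LD n g x) :
    (∀ᶠ p in 𝓝 (ι x), ContDiffAt ℝ ∞ G p) ∧ ImmAt ι πM e π G x := by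
  have hπt : Tendsto πM (𝓝 (ι x)) (𝓝 x) := by
    have := (hTM.near x).self_of_nhds.continuousAt.tendsto
    rwa [hTM.retr] at this
  have hGs : ∀ᶠ p in 𝓝 (ι x), ContDiffAt ℝ ∞ G p := by
    filter_upwards [hG.eventually_nhds, hTM.near x, hπt.eventually hg.eventually] with
      p h1 h2 h3
    have h4 : ContMDiffAt (𝓡 m) (𝓡 d) ∞ (fun p => e (g (πM p))) p :=
      (hT.smooth (g (πM p))).comp p (h3.contMDiffAt.comp p h2)
    exact (contMDiffAt_iff_contDiffAt.1 h4).congr_of_eventuallyEq h1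
  refine ⟨hGs, fun w hw => ?_⟩
  obtain ⟨A₀, hA₀0, hA₀⟩ := exists_param (n := n) x
  obtain ⟨σ, hσ, hσ1, hB'⟩ := exists_box0 hA₀
  obtain ⟨A, hAd⟩ : ∃ A : E n → X, A = fun z => A₀ (σ • z) := ⟨_, rfl⟩
  rw [← hAd] at hB'
  have hA0 : A 0 = x := by rw [hAd]; simp only [smul_zero]; exact hA₀0
  subst hA0
  have hA := hB'
  obtain ⟨T, Λ, s₁, hTs, hΛ, hs₁, hs₁1, hgeo⟩ := geo hTM hA (F := ι) (H := PP ι πM)
    (Eventually.of_forall fun p => rfl) one_pos
  obtain ⟨hg1, -, -⟩ := hgeo 0 (by rw [norm_zero]; exact hs₁.le)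
  have hw2 := lift_tn hTM hs₁ hg1 hTs hw.2
  obtain ⟨u, hu⟩ : ∃ u, u = fderiv ℝ T (ι (A 0)) w := ⟨_, rfl⟩
  rw [← hu] at hw2
  have hu0 : u ≠ 0 := by
    intro h
    rw [h, map_zero] at hw2
    have := hw.1
    rw [← hw2, norm_zero] at this
    exact zero_ne_one this
  have hGd : HasFDerivAt G (fderiv ℝ G (ι (A 0))) (ι (A 0)) :=
    (hGs.self_of_nhds.differentiableAt (by simp)).hasFDerivAt
  have hcomp : HasFDerivAt (fun w => G (ι (A w)))
      ((fderiv ℝ G (ι (A 0))).comp (fderiv ℝ (fun w => ι (A w)) 0)) 0 :=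
    HasFDerivAt.comp (g := G) (f := fun w => ι (A w)) 0 hGd hg1.der
  have heq : (fun w => e (g (A w))) =ᶠ[𝓝 0] fun w => G (ι (A w)) := by
    filter_upwards [hg1.der.continuousAt.eventually hG] with w hw
    rw [hw, hTM.retr]
  have hV : HasFDerivAt (fun w => e (g (A w)))
      ((fderiv ℝ G (ι (A 0))).comp (fderiv ℝ (fun w => ι (A w)) 0)) 0 :=
    hcomp.congr_of_eventuallyEq heq
  have hgA : LD n (fun y => g (A y)) 0 := LD.comp_fun hg (hA.ld 0 (by simp))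
  have h1 := imm_of_LD hT hgA hV hu0
  rw [ContinuousLinearMap.comp_apply, hw2] at h1
  have hval : G (ι (A 0)) = e (g (A 0)) := by rw [hG.self_of_nhds, hTM.retr]
  rw [hval]
  have h2 := (PP_hasFDerivAt hT (g (A 0))).comp 0 hV
  have h3 : (PP e π) ∘ (fun y => e (g (A y))) = fun y => e (g (A y)) := by
    funext w
    exact PP_fix hT _
  rw [h3] at h2
  have h6 := congrArg (fun T : E n →L[ℝ] E d => T u) (h2.unique hV)
  simp only [ContinuousLinearMap.comp_apply] at h6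
  rw [hw2] at h6
  rw [h6]
  exact h1

/-- **Paths of homeomorphisms.** -/
theorem path_tub [CompactSpace X] [ConnectedSpace X] [CompactSpace Y] [T2Space Y]
    {ι : X → E m} {πM : E m → X} (hTM : Tub n ι πM)
    (hnM : ∀ p y, ‖p - ι (πM p)‖ ≤ ‖p - ι y‖) (hinj : Injective ι) (hι1 : ∀ x, ‖ι x‖ < 1)
    {e : Y → E d} {π : E d → Y} (hT : Tub n e π) (hn : ∀ p y, ‖p - e (π p)‖ ≤ ‖p - e y‖)
    {f : ℝ × X → Y} (hf : Continuous f) (hfb : ∀ t, Bijective fun x => f (t, x))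
    {R : Set ℝ} {lam c : ℝ} (hlam : 0 < lam)
    (hR : ∀ ε > 0, ∃ r ∈ R, 0 < r ∧ r ≤ ε) (hc0 : 0 ≤ c) (hc : c * (1 + Real.sqrt m) < 1)
    (hloc : ∀ t₀ ∈ Icc (0 : ℝ) 1, ∀ x, SFat n ι lam R c (fun t x => e (f (t, x))) t₀ x)
    (h0 : ∀ x, LD n (fun x => f (0, x)) x) (h1 : ∀ x, LD n (fun x => f (1, x)) x) {ε₀ : ℝ}
    (hε₀ : 0 < ε₀) :
    Iso n (fun φ : X → Y => Bijective φ ∧ (∀ x, LD n φ x) ∧
        ∃ t ∈ Icc (0 : ℝ) 1, ∀ x, ‖e (φ x) - e (f (t, x))‖ ≤ ε₀)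
      (fun x => f (0, x)) (fun x => f (1, x)) := by
  classical
  obtain ⟨P, hP⟩ : ∃ P : (X → Y) → Prop, P = fun φ => Bijective φ ∧ (∀ x, LD n φ x) ∧
    ∃ t ∈ Icc (0 : ℝ) 1, ∀ x, ‖e (φ x) - e (f (t, x))‖ ≤ ε₀ := ⟨_, rfl⟩
  rw [← hP]
  -- the numbers
  obtain ⟨θ, hθ0, hθ1, hcθ⟩ : ∃ θ : ℝ, 0 < θ ∧ θ < 1 ∧ c * (1 + Real.sqrt m / θ * θ⁻¹) < 1 := by
    have hcont : ContinuousAt (fun t : ℝ => c * (1 + Real.sqrt m / (1 - t) * (1 - t)⁻¹)) 0 := by
      apply ContinuousAt.mul continuousAt_const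
      apply ContinuousAt.add continuousAt_const
      apply ContinuousAt.mul
      · apply ContinuousAt.div continuousAt_const (by fun_prop)
        norm_num
      · apply ContinuousAt.inv₀ (by fun_prop)
        norm_num
    have h1 : ∀ᶠ t in 𝓝 (0 : ℝ), c * (1 + Real.sqrt m / (1 - t) * (1 - t)⁻¹) < 1 := by
      apply hcont.eventually_lt_const
      show c * (1 + Real.sqrt m / (1 - 0) * (1 - 0)⁻¹) < 1
      simpa using hc
    obtain ⟨t, ⟨h2, h3⟩, h4⟩ := ((h1.filter_mono nhdsWithin_le_nhds).and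
      (small 1 (D := 1) one_pos)).and self_mem_nhdsWithin |>.exists
    have h5 : 0 < t := h4
    exact ⟨1 - t, by linarith, by linarith, h2⟩
  obtain ⟨K⟩ := exists_ker m hθ0 hθ1
  have hιc : Continuous ι := hTM.smooth.continuous
  have hF : Continuous fun p : ℝ × X => e (f p) := hT.smooth.continuous.comp hf
  obtain ⟨χ, hχ, -, hχ1⟩ := exists_cut hιc hinj hι1 (S := univ) (U := univ) isCompact_univ
    isOpen_univ (subset_refl _)
  have hχ1' : ∀ x, χ (ι x) = 1 := fun x => (hχ1 x (mem_univ x)).self_of_nhds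
  obtain ⟨H, ρ, hH, hρ, hHn⟩ := exists_HF hTM hF
  have hHe : ∀ t x, ∀ᶠ p in 𝓝 (ι x), H (t, p) = e (f (t, πM p)) := by
    intro t x
    filter_upwards [closedBall_mem_nhds (ι x) hρ] with p hp
    rw [mem_closedBall, dist_eq_norm] at hp
    exact hHn t x p hp
  have hval : ∀ t x, H (t, ι x) = e (f (t, x)) := by
    intro t x
    rw [(hHe t x).self_of_nhds, hTM.retr]
  have hHt : ∀ t, Continuous fun p => H (t, p) := fun t => by fun_prop
  -- the homeomorphisms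
  have hfc : ∀ t, Continuous fun x => f (t, x) := fun t => by fun_prop
  obtain ⟨g, hg⟩ : ∃ g : ℝ → X ≃ₜ Y, ∀ t x, g t x = f (t, x) :=
    ⟨fun t => Continuous.homeoOfEquivCompactToT2 (f := Equiv.ofBijective _ (hfb t)) (hfc t),
      fun t x => rfl⟩
  obtain ⟨τ₁, hτ₁0, hτu⟩ := PP_unif hT one_pos
  obtain ⟨τ, hτd⟩ : ∃ τ, τ = min τ₁ ε₀ := ⟨_, rfl⟩
  have hτ0 : 0 < τ := by rw [hτd]; exact lt_min hτ₁0 hε₀
  have hτ : ∀ y : Y, ∀ p : E d, ‖p - e y‖ ≤ τ → ContMDiffAt (𝓡 d) (𝓡 n) ∞ π p :=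
    fun y p hp => (hτu y p (hp.trans (by rw [hτd]; exact min_le_left _ _))).1
  have hmono : ∀ t ∈ Icc (0 : ℝ) 1, ∀ φ : X → Y,
      (Bijective φ ∧ (∀ x, LD n φ x) ∧ ∀ x, ‖e (φ x) - e (g t x)‖ ≤ τ) → P φ := by
    rintro t ht φ ⟨a1, a2, a3⟩
    rw [hP]
    refine ⟨a1, a2, t, ht, fun x => ?_⟩
    have := a3 x
    rw [hg] at this
    exact this.trans (by rw [hτd]; exact min_le_right _ _)
  -- the ends
  have hend : ∀ j ∈ Icc (0 : ℝ) 1, (∀ x, LD n (fun x => f (j, x)) x) → ∃ δ₀ : ℝ, 0 < δ₀ ∧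
      ∀ δ, 0 < δ → δ ≤ δ₀ → δ ≤ 1 / 4 →
        (∀ x, ∀ᶠ p in 𝓝 (ι x), ContDiffAt ℝ ∞ (Mol K (fun p => H (j, p)) fun z => δ * χ z) p) →
        Iso n P (fun x => f (j, x))
          (fun x => π (Mol K (fun p => H (j, p)) (fun z => δ * χ z) (ι x))) := by
    intro j hjI hj
    have e1 := fun x => imm_end hTM hT (g := fun x => f (j, x)) (hHe j x) (hj x)
    obtain ⟨ε, hε, hnear⟩ := iso_near hTM hT hn hτ0 hτ (g j) (Q₀ := fun p => H (j, p))
      (fun x => (e1 x).1) (fun x => by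
        rw [hval, hg, sub_self, norm_zero]
        positivity) (fun x => (e1 x).2)
    obtain ⟨δ₀, hδ₀, hmol⟩ := mol_end K (isCompact_range hιc) (by
      rintro _ ⟨x, rfl⟩
      exact (hι1 x).le.trans (by norm_num)) (hHt j) (by
      rintro _ ⟨x, rfl⟩
      exact (e1 x).1) hε
    refine ⟨δ₀, hδ₀, fun δ hδ hδ1 hδ2 hsm => ?_⟩
    have hfun : (fun x => f (j, x)) = fun x => π (H (j, ι x)) := by
      funext x
      rw [hval, hT.retr]
    rw [hfun]
    have h2 := fun x => hmol (fun z => δ * χ z) δ (hχ.rad hδ hδ2) hδ hδ1 (ι x) (mem_range_self x)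
      (by rw [hχ1', mul_one]) (by
        have h3 : (fun z => δ * χ z) =ᶠ[𝓝 (ι x)] fun _ => δ := by
          filter_upwards [hχ1 x (mem_univ x)] with p hp
          rw [hp, mul_one]
        rw [h3.fderiv_eq]
        simp)
    exact (hnear _ hsm (fun x => (h2 x).1) (fun x w hw => (h2 x).2 w hw.1)).mono (hmono j hjI)
  obtain ⟨δ₀, hδ₀, hend0⟩ := hend 0 (by simp) h0
  obtain ⟨δ₁, hδ₁, hend1⟩ := hend 1 (by simp) h1
  -- the scale
  have hpt : ∀ q : ℝ × X, q ∈ Icc (0 : ℝ) 1 ×ˢ (univ : Set X) →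
      ∃ (B : E n → X) (s : ℝ), B 0 = q.2 ∧ Box B ∧ 0 < s ∧ ∀ r ∈ R, 0 < r → r ≤ s →
      ∀ t, |t - q.1| ≤ s → ∀ y : E n, ‖y‖ ≤ s →
      ImmAt ι πM e π (Mol K (fun p => H (t, p)) (fun z => (lam * θ * r) * χ z)) (B y) := by
    intro q hq
    exact fam_pt K hθ0 hTM hnM (fun x => (hι1 x).le) hT hn hf (fun t => (hfb t).1) hH hρ hHn hχ
      hχ1' hlam hθ0 hθ1 hc0 hcθ (hloc q.1 hq.1 q.2)
  obtain ⟨sm, hsm, himm⟩ : ∃ sm : ℝ, 0 < sm ∧ ∀ r ∈ R, 0 < r → r ≤ sm → ∀ t ∈ Icc (0 : ℝ) 1,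
      ∀ x, ImmAt ι πM e π (Mol K (fun p => H (t, p)) (fun z => (lam * θ * r) * χ z)) x := by
    choose! B s hB0 hB hs himm using hpt
    have hcomp : IsCompact (Icc (0 : ℝ) 1 ×ˢ (univ : Set X)) := isCompact_Icc.prod isCompact_univ
    have hcov : ∀ q ∈ Icc (0 : ℝ) 1 ×ˢ (univ : Set X),
        ball q.1 (s q) ×ˢ (B q '' ball 0 (min (s q) 1)) ∈ 𝓝 q := by
      intro q hq
      have h2 : LD n (B q) 0 := (hB q hq).ld 0 (by simp)
      have h3 := h2.image_mem_nhds (ball_mem_nhds (0 : E n) (lt_min (hs q hq) one_pos))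
      rw [hB0 q hq] at h3
      exact prod_mem_nhds (ball_mem_nhds _ (hs q hq)) h3
    obtain ⟨t, htI, ht⟩ := hcomp.elim_nhds_subcover _ hcov
    obtain ⟨sm, hsm, hsm'⟩ := exists_lower' (fun q : t => s q.1) (fun q => hs _ (htI _ q.2))
    refine ⟨sm, hsm, fun r hrR hr0 hr t' ht' x => ?_⟩
    have h2 := ht (show (t', x) ∈ Icc (0 : ℝ) 1 ×ˢ (univ : Set X) from ⟨ht', mem_univ x⟩)
    rw [mem_iUnion₂] at h2
    obtain ⟨q, hq, hq1, y, hy, hyx⟩ := h2
    simp only at hq1 hyx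
    rw [mem_ball, Real.dist_eq] at hq1
    rw [mem_ball_zero_iff] at hy
    have h3 := himm q (htI q hq) r hrR hr0 (hr.trans (hsm' ⟨q, hq⟩)) t' hq1.le y
      (hy.le.trans (min_le_left _ _))
    rwa [hyx] at h3
  -- uniform continuity
  obtain ⟨η, hη, hηu⟩ : ∃ η : ℝ, 0 < η ∧ ∀ t ∈ Icc (0 : ℝ) 1, ∀ p ∈ closedBall (0 : E m) 2,
      ∀ q ∈ closedBall (0 : E m) 2, ‖p - q‖ ≤ η → ‖H (t, p) - H (t, q)‖ ≤ τ / 4 := by
    have h1 := ((isCompact_Icc (a := (0 : ℝ)) (b := 1)).prod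
      (isCompact_closedBall (0 : E m) 2)).uniformContinuousOn_of_continuous hH.continuousOn
    rw [Metric.uniformContinuousOn_iff] at h1
    obtain ⟨θ', hθ', h2⟩ := h1 (τ / 4) (by positivity)
    refine ⟨θ' / 2, by positivity, fun t ht p hp q hq hpq => ?_⟩
    have h3 := h2 (t, p) ⟨ht, hp⟩ (t, q) ⟨ht, hq⟩ (by
      rw [Prod.dist_eq, dist_self, dist_eq_norm]
      simp only
      exact max_lt hθ' (by linarith))
    rw [dist_eq_norm] at h3
    exact h3.le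
  have hlt : 0 < lam * θ := by positivity
  obtain ⟨r, hrR, hr0, hrr⟩ := hR (min sm (min (min δ₀ δ₁ / (lam * θ))
    (min (η / (lam * θ)) (1 / 4 / (lam * θ)))))
    (lt_min hsm (lt_min (div_pos (lt_min hδ₀ hδ₁) hlt) (lt_min (by positivity) (by positivity))))
  have hr1 : r ≤ sm := hrr.trans (min_le_left _ _)
  have hr4 : lam * θ * r ≤ min δ₀ δ₁ := by
    have h1 : r ≤ min δ₀ δ₁ / (lam * θ) := hrr.trans ((min_le_right _ _).trans (min_le_left _ _))
    rw [le_div_iff₀ hlt] at h1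
    linarith
  have hr2 : lam * θ * r ≤ η := by
    have h1 : r ≤ η / (lam * θ) :=
      hrr.trans ((min_le_right _ _).trans ((min_le_right _ _).trans (min_le_left _ _)))
    rw [le_div_iff₀ hlt] at h1
    linarith
  have hr3 : lam * θ * r ≤ 1 / 4 := by
    have h1 : r ≤ 1 / 4 / (lam * θ) :=
      hrr.trans ((min_le_right _ _).trans ((min_le_right _ _).trans (min_le_right _ _)))
    rw [le_div_iff₀ hlt] at h1
    linarith
  have hδ0 : 0 < lam * θ * r := by positivity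
  have himm' := himm r hrR hr0 hr1
  obtain ⟨δ, hδ⟩ : ∃ δ, δ = lam * θ * r := ⟨_, rfl⟩
  rw [← hδ] at hr2 hr3 hr4 hδ0 himm'
  obtain ⟨cc, hcc⟩ : ∃ cc : E m → ℝ, cc = fun z => δ * χ z := ⟨_, rfl⟩
  have hRad : Rad cc := by rw [hcc]; exact hχ.rad hδ0 hr3
  have hccι : ∀ x, cc (ι x) = δ := fun x => by rw [hcc]; simp only [hχ1', mul_one]
  have hccd : ∀ x, fderiv ℝ cc (ι x) = 0 := by
    intro x
    have h3 : cc =ᶠ[𝓝 (ι x)] fun _ => δ := by
      filter_upwards [hχ1 x (mem_univ x)] with p hp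
      rw [hcc]
      simp only [hp, mul_one]
    rw [h3.fderiv_eq]
    simp
  have hsm : ∀ t x, ∀ᶠ p in 𝓝 (ι x), ContDiffAt ℝ ∞ (Mol K (fun p => H (t, p)) cc) p := by
    intro t x
    have h3 : ∀ᶠ p in 𝓝 (ι x), 0 < cc p := by
      apply hRad.smooth.continuous.continuousAt.eventually_const_lt
      rw [hccι]
      exact hδ0
    filter_upwards [h3] with p hp
    exact moll_pos K (hHt t).continuousOn hRad.smooth hRad.le (fun z hz => hRad.zero z hz.le) hp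
  have hclose : ∀ t ∈ Icc (0 : ℝ) 1, ∀ x,
      ‖Mol K (fun p => H (t, p)) cc (ι x) - e (g t x)‖ ≤ τ / 4 := by
    intro t ht x
    rw [hg, ← hval]
    apply mol_close' K (G := fun p => H (t, p)) (hHt t).continuousOn hRad
      ((hι1 x).le.trans (by norm_num))
    intro q hq
    rw [hccι] at hq
    apply hηu t ht q _ (ι x) _ (hq.trans hr2)
    · rw [mem_closedBall_zero_iff]
      have h4 := norm_add_le (q - ι x) (ι x)
      rw [sub_add_cancel] at h4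
      have h5 := hι1 x
      linarith
    · rw [mem_closedBall_zero_iff]
      have h5 := hι1 x
      linarith
  rw [← hcc] at himm'
  -- nearby times
  have hconn : ∀ t ∈ Icc (0 : ℝ) 1, ∀ᶠ t' in 𝓝[Icc (0 : ℝ) 1] t,
      Iso n P (fun x => π (Mol K (fun p => H (t, p)) cc (ι x)))
        (fun x => π (Mol K (fun p => H (t', p)) cc (ι x))) := by
    intro t ht
    obtain ⟨ε, hε, hnear⟩ := iso_near hTM hT hn hτ0 hτ (g t)
      (Q₀ := Mol K (fun p => H (t, p)) cc) (hsm t) (hclose t ht) (himm' t ht)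
    have h3 := mol_t K hθ0 hH hRad t (δ := δ) (β := 0) hδ0 hε
    filter_upwards [h3.filter_mono nhdsWithin_le_nhds] with t' ht'
    have h4 := fun x => ht' (ι x) ((hι1 x).le.trans (by norm_num)) (hccι x)
      (by rw [hccd x, norm_zero])
    exact (hnear _ (hsm t') (fun x => (h4 x).1) (fun x w hw => (h4 x).2 w hw.1)).mono (hmono t ht)
  have hpath := isPreconnected_Icc.induction₂ (s := Icc (0 : ℝ) 1)
    (fun t t' => Iso n P (fun x => π (Mol K (fun p => H (t, p)) cc (ι x)))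
        (fun x => π (Mol K (fun p => H (t', p)) cc (ι x)))) hconn
    (fun _ _ _ _ _ _ h h' => h.trans h') (fun _ _ _ _ h => h.symm)
    (show (0 : ℝ) ∈ Icc (0 : ℝ) 1 by simp) (show (1 : ℝ) ∈ Icc (0 : ℝ) 1 by simp)
  have ha := hend0 δ hδ0 (hr4.trans (min_le_left _ _)) hr3 (by rw [← hcc]; exact hsm 0)
  have hb := hend1 δ hδ0 (hr4.trans (min_le_right _ _)) hr3 (by rw [← hcc]; exact hsm 1)
  rw [← hcc] at ha hb
  exact (ha.trans hpath).trans hb.symm

end Pool.Agent.U498.AI
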